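import Pool.Agent.H754R3.Sturm.Marks

/-!
# The multiscale estimate
-/

namespace Pool.Agent.H754R3.Sturm

open Finset

/-- The word of `y` on the interval `[a,b]` occurs in the Sturmian sequence. -/
def Allowed (y : Cfg) (a b : ℤ) : Prop := ∃ c : ℤ, ∀ i : ℤ, a ≤ i → i ≤ b → y i = X (i + c)

lemma Allowed.mono {y : Cfg} {a b a' b' : ℤ} (h : Allowed y a b) (ha : a ≤ a') (hb : b' ≤ b) :
    Allowed y a' b' := by
  obtain ⟨c, hc⟩ := h
  exact ⟨c, fun i h1 h2 => hc i (ha.trans h1) (h2.trans hb)⟩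

/-- The radius of the windows of level `k`. -/
def rad (k : ℕ) : ℤ := Nat.fib (k + 6)

lemma rad_ge (k : ℕ) : (Nat.fib (k + 5) : ℤ) + Nat.fib k ≤ rad k := by
  have h1 : (Nat.fib (k + 6) : ℤ) = Nat.fib (k + 4) + Nat.fib (k + 5) := by
    rw [show k + 6 = (k + 4) + 2 by ring, Nat.fib_add_two]; push_cast; ring
  have h2 : (Nat.fib k : ℤ) ≤ Nat.fib (k + 4) := by exact_mod_cast Nat.fib_mono (by omega)
  unfold rad
  omega

lemma mark_of_allowed {y : Cfg} {c : ℤ} {k : ℕ} {m0 : ℤ} (hm : Mark k X m0)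
    (hc : ∀ i : ℤ, m0 - c - Nat.fib k < i → i < m0 - c + Nat.fib k → y i = X (i + c)) :
    Mark k y (m0 - c) := by
  intro r hr
  rw [abs_lt] at hr
  rw [hc _ (by linarith [hr.1]) (by linarith [hr.2]), ← hm r (abs_lt.mpr hr)]
  congr 1; ring

lemma good_pair {y : Cfg} {k : ℕ} {l t t' : ℤ} (hall : Allowed y (l - rad k) (l + rad k))
    (hcons : ∀ s, t < s → s < t' → ¬ Mark k y s) (htl : t ≤ l) (hlt : l < t') :
    Allowed y (t - Nat.fib k) (t' + Nat.fib k) := by
  obtain ⟨c, hc⟩ := hall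
  have hrad := rad_ge k
  obtain ⟨m0, h1, h2, h3⟩ := exists_mark k (l + c - Nat.fib (k + 5) + 1)
  obtain ⟨m1, h4, h5, h6⟩ := exists_mark k (l + 1 + c)
  have hm0 : Mark k y (m0 - c) := mark_of_allowed h3 fun i hi1 hi2 =>
    hc i (by linarith) (by linarith)
  have hm1 : Mark k y (m1 - c) := mark_of_allowed h6 fun i hi1 hi2 =>
    hc i (by linarith) (by linarith)
  have hle0 : m0 - c ≤ t := by
    by_contra hcon
    push Not at hcon
    exact hcons _ hcon (by linarith) hm0
  have hle1 : t' ≤ m1 - c := by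
    by_contra hcon
    push Not at hcon
    exact hcons _ (by linarith) hcon hm1
  exact ⟨c, fun i hi1 hi2 => hc i (by linarith) (by linarith)⟩

lemma sum_shift (f : ℤ → ℝ) (a b c : ℤ) :
    ∑ n ∈ Ico a b, f (n + c) = ∑ n ∈ Ico (a + c) (b + c), f n :=
  Finset.sum_Ico_add' f a b c

lemma good_bound {m : ℕ} {F : Cfg → ℝ} (hF : LocalFn m F) {ρ C : ℝ} {L : ℕ}
    (hnice : ∀ (i j : ℤ) (δ : ℝ), i ≤ j → 0 ≤ δ →
      (∀ l : ℕ, l < L → |g (j + l) - g (i + l)| ≤ δ) →
      |∑ n ∈ Ico i j, (F (look X n) - ρ)| ≤ C * δ)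
    {k : ℕ} (hm : m ≤ Nat.fib (k + 3)) (hL : L ≤ Nat.fib (k + 1)) {y : Cfg} {t t' : ℤ}
    (htt : t < t') (ht : Mark (k + 3) y t) (ht' : Mark (k + 3) y t')
    (hall : Allowed y (t - Nat.fib (k + 3)) (t' + Nat.fib (k + 3))) :
    |∑ n ∈ Ico t t', (F (look y n) - ρ)| ≤ C * φ ^ k ∧ 1 ≤ 4 * φ ^ k * ((t' : ℝ) - t) := by
  obtain ⟨c, hc⟩ := hall
  have hmk : Mark (k + 3) X (t + c) := by
    intro r hr
    have hr' := abs_lt.mp hr
    rw [← ht r hr, hc (t + r) (by linarith [hr'.1]) (by linarith [hr'.2])]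
    congr 1; ring
  have hmk' : Mark (k + 3) X (t' + c) := by
    intro r hr
    have hr' := abs_lt.mp hr
    rw [← ht' r hr, hc (t' + r) (by linarith [hr'.1]) (by linarith [hr'.2])]
    congr 1; ring
  constructor
  · have e : ∑ n ∈ Ico t t', (F (look y n) - ρ)
        = ∑ n ∈ Ico (t + c) (t' + c), (F (look X n) - ρ) := by
      rw [← sum_shift]
      refine Finset.sum_congr rfl fun n hn => ?_
      rw [Finset.mem_Ico] at hn
      congr 1
      apply hF
      intro i hi1 hi2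
      simp only [look]
      have hmi : (m : ℤ) ≤ Nat.fib (k + 3) := by exact_mod_cast hm
      rw [hc (n + i) (by linarith) (by linarith)]
      congr 1; ring
    rw [e]
    refine hnice _ _ _ (by linarith) (pow_pos φ_pos k).le ?_
    intro l hl
    refine (mark_g_close hmk' hmk (by positivity) ?_).le
    exact_mod_cast (hl.le.trans hL)
  · have h := mark_sep hmk' hmk (by intro h; linarith)
    have e : |(((t' + c) - (t + c) : ℤ) : ℝ)| = (t' : ℝ) - t := by
      rw [abs_of_pos]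
      · push_cast; ring
      · have : (0 : ℤ) < (t' + c) - (t + c) := by linarith
        exact_mod_cast this
    rwa [e] at h

open Classical in
/-- The number of positions in `[i,j)` whose window of level `k` is not allowed. -/
noncomputable def E (y : Cfg) (k : ℕ) (i j : ℤ) : ℝ :=
  ∑ p ∈ Ico i j, if Allowed y (p - rad k) (p + rad k) then 0 else 1

lemma E_nonneg (y : Cfg) (k : ℕ) (i j : ℤ) : 0 ≤ E y k i j := by
  unfold E
  refine Finset.sum_nonneg fun p _ => ?_
  split_ifs <;> norm_num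

lemma E_split (y : Cfg) (k : ℕ) {a b c : ℤ} (hab : a ≤ b) (hbc : b ≤ c) :
    E y k a c = E y k a b + E y k b c := sum_Ico_split _ hab hbc

lemma E_all (y : Cfg) (k : ℕ) {a b : ℤ} (hab : a ≤ b)
    (h : ∀ l, a ≤ l → l < b → ¬ Allowed y (l - rad k) (l + rad k)) :
    E y k a b = (b : ℝ) - a := by
  unfold E
  rw [Finset.sum_congr rfl (g := fun _ => (1 : ℝ))]
  · rw [Finset.sum_const, Int.card_Ico, nsmul_eq_mul, mul_one]
    have : (((b - a).toNat : ℤ) : ℝ) = ((b - a : ℤ) : ℝ) := by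
      rw [Int.toNat_of_nonneg (by linarith)]
    rw [Int.cast_natCast] at this
    rw [this]; push_cast; ring
  · intro p hp
    rw [Finset.mem_Ico] at hp
    rw [if_neg (h p hp.1 hp.2)]

lemma local_bounded {m : ℕ} {F : Cfg → ℝ} (hF : LocalFn m F) : ∃ B : ℝ, 0 ≤ B ∧ ∀ x, |F x| ≤ B := by
  let ext : (Fin m → Bool) → Cfg := fun v i =>
    if h : 1 ≤ i ∧ i ≤ m then v ⟨(i - 1).toNat, by omega⟩ else false
  refine ⟨∑ v : Fin m → Bool, |F (ext v)|, Finset.sum_nonneg fun _ _ => abs_nonneg _, fun x => ?_⟩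
  let w : Fin m → Bool := fun l => x (l + 1 : ℕ)
  have h1 : F x = F (ext w) := by
    apply hF
    intro i hi1 hi2
    simp only [ext, w]
    rw [dif_pos ⟨hi1, hi2⟩]
    congr 1
    push_cast
    rw [Int.toNat_of_nonneg (by linarith)]
    ring
  rw [h1]
  exact Finset.single_le_sum (f := fun v => |F (ext v)|) (fun _ _ => abs_nonneg _)
    (Finset.mem_univ w)

/-- The additive error functional. -/
noncomputable def err (y : Cfg) (k0 k : ℕ) (i j : ℤ) : ℝ :=
  ∑ l ∈ Ico k0 k, φ ^ (2 * l) * E y (l + 1) i j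

lemma err_split (y : Cfg) (k0 k : ℕ) {a b c : ℤ} (hab : a ≤ b) (hbc : b ≤ c) :
    err y k0 k a c = err y k0 k a b + err y k0 k b c := by
  unfold err
  rw [← Finset.sum_add_distrib]
  refine Finset.sum_congr rfl fun l _ => ?_
  rw [E_split y (l + 1) hab hbc]; ring

lemma err_nonneg (y : Cfg) (k0 k : ℕ) (i j : ℤ) : 0 ≤ err y k0 k i j :=
  Finset.sum_nonneg fun _ _ => mul_nonneg (pow_pos φ_pos _).le (E_nonneg _ _ _ _)

theorem multiscale {m : ℕ} {F : Cfg → ℝ} (hF : LocalFn m F) :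
    ∃ (ρ K : ℝ) (k0 : ℕ), 0 ≤ K ∧ ∀ (y : Cfg) (k : ℕ), k0 ≤ k → ∀ i j : ℤ, i ≤ j →
      Mark k y i → Mark k y j →
      |∑ n ∈ Ico i j, (F (look y n) - ρ)| ≤ K * (φ ^ (2 * k) * ((j : ℝ) - i)) + K * err y k0 k i j := by
  obtain ⟨ρ, C, L, hC, hnice⟩ := nice_local hF
  obtain ⟨B, hB0, hB⟩ := local_bounded hF
  -- choose the starting level
  set k0 : ℕ := m + L + 6 with hk0
  have hfib : ∀ n : ℕ, n ≤ Nat.fib (n + 5) := fun n => by
    have := Nat.le_fib_self (n := n + 5) (by omega)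
    omega
  have hm0 : m ≤ Nat.fib k0 :=
    (hfib m).trans (Nat.fib_mono (by omega))
  have hφ := φ_pos
  set K : ℝ := (B + |ρ|) * (φ⁻¹) ^ (2 * k0) + 4 * C * (φ⁻¹) ^ 6 with hK
  have hK1 : (B + |ρ|) ≤ K * φ ^ (2 * k0) := by
    have h1 : (φ⁻¹) ^ (2 * k0) * φ ^ (2 * k0) = 1 := by
      rw [← mul_pow, inv_mul_cancel₀ hφ.ne', one_pow]
    have h2 : 0 ≤ 4 * C * (φ⁻¹) ^ 6 * φ ^ (2 * k0) := by positivity
    calc B + |ρ| = (B + |ρ|) * ((φ⁻¹) ^ (2 * k0) * φ ^ (2 * k0)) := by rw [h1, mul_one]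
      _ ≤ (B + |ρ|) * ((φ⁻¹) ^ (2 * k0) * φ ^ (2 * k0)) + 4 * C * (φ⁻¹) ^ 6 * φ ^ (2 * k0) := by
          linarith
      _ = K * φ ^ (2 * k0) := by rw [hK]; ring
  have hK2 : 4 * C ≤ K * φ ^ 6 := by
    have h1 : (φ⁻¹) ^ 6 * φ ^ 6 = 1 := by
      rw [← mul_pow, inv_mul_cancel₀ hφ.ne', one_pow]
    have h2 : 0 ≤ (B + |ρ|) * (φ⁻¹) ^ (2 * k0) * φ ^ 6 := by positivity
    calc 4 * C = 4 * C * ((φ⁻¹) ^ 6 * φ ^ 6) := by rw [h1, mul_one]
      _ ≤ 4 * C * ((φ⁻¹) ^ 6 * φ ^ 6) + (B + |ρ|) * (φ⁻¹) ^ (2 * k0) * φ ^ 6 := by linarith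
      _ = K * φ ^ 6 := by rw [hK]; ring
  have hK0 : 0 ≤ K := by positivity
  refine ⟨ρ, K, k0, hK0, fun y k hk => ?_⟩
  induction k, hk using Nat.le_induction with
  | base =>
    intro i j hij _ _
    have h1 : |∑ n ∈ Ico i j, (F (look y n) - ρ)| ≤ ∑ n ∈ Ico i j, (B + |ρ|) := by
      refine (Finset.abs_sum_le_sum_abs _ _).trans (Finset.sum_le_sum fun n _ => ?_)
      exact (abs_sub _ _).trans (add_le_add (hB _) le_rfl)
    rw [Finset.sum_const, Int.card_Ico, nsmul_eq_mul] at h1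
    have h2 : (((j - i).toNat : ℤ) : ℝ) = ((j - i : ℤ) : ℝ) := by
      rw [Int.toNat_of_nonneg (by linarith)]
    rw [Int.cast_natCast] at h2
    rw [h2] at h1
    have h3 : (0 : ℝ) ≤ (j : ℝ) - i := by
      have : (i : ℝ) ≤ j := by exact_mod_cast hij
      linarith
    have h4 := mul_le_mul_of_nonneg_right hK1 h3
    have h5 := mul_nonneg hK0 (err_nonneg y k0 k0 i j)
    push_cast at h1
    calc _ ≤ _ := h1
      _ = (B + |ρ|) * ((j : ℝ) - i) := by ring
      _ ≤ K * φ ^ (2 * k0) * ((j : ℝ) - i) := h4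
      _ ≤ _ := by linarith
  | succ k hk ih =>
    -- strong induction on the length
    have main : ∀ N : ℕ, ∀ i j : ℤ, i ≤ j → (j - i).toNat ≤ N → Mark (k + 1) y i →
        Mark (k + 1) y j →
        |∑ n ∈ Ico i j, (F (look y n) - ρ)|
          ≤ K * (φ ^ (2 * (k + 1)) * ((j : ℝ) - i)) + K * err y k0 (k + 1) i j := by
      intro N
      induction N with
      | zero =>
        intro i j hij hN _ _
        have : i = j := by omega
        subst this
        simp only [Finset.Ico_self, Finset.sum_empty, abs_zero, sub_self, mul_zero, zero_add]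
        exact mul_nonneg hK0 (err_nonneg _ _ _ _ _)
      | succ N ihN =>
        intro i j hij hN hi hj
        rcases hij.eq_or_lt with h | h
        · subst h
          simp only [Finset.Ico_self, Finset.sum_empty, abs_zero, sub_self, mul_zero, zero_add]
          exact mul_nonneg hK0 (err_nonneg _ _ _ _ _)
        · obtain ⟨t, ⟨ht1, ht2⟩, ht3⟩ := Int.exists_least_of_bdd
            (P := fun s => i < s ∧ Mark (k + 1) y s) ⟨i, fun z hz => hz.1.le⟩ ⟨j, h, hj⟩
          have htj : t ≤ j := ht3 j ⟨h, hj⟩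
          have hcons : ∀ s, i < s → s < t → ¬ Mark (k + 1) y s := fun s hs1 hs2 hs3 =>
            absurd (ht3 s ⟨hs1, hs3⟩) (not_le.mpr hs2)
          have hrest := ihN t j htj (by omega) ht2 hj
          have hti : (0 : ℝ) < (t : ℝ) - i := by
            have : (i : ℝ) < t := by exact_mod_cast ht1
            linarith
          have hfirst : |∑ n ∈ Ico i t, (F (look y n) - ρ)|
              ≤ K * (φ ^ (2 * (k + 1)) * ((t : ℝ) - i)) + K * err y k0 (k + 1) i t := by
            by_cases hgood : ∃ l, i ≤ l ∧ l < t ∧ Allowed y (l - rad (k + 1)) (l + rad (k + 1))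
            · obtain ⟨l, hl1, hl2, hl3⟩ := hgood
              have hall := good_pair hl3 hcons hl1 hl2
              obtain ⟨k', rfl⟩ : ∃ k', k = k' + 2 := ⟨k - 2, by omega⟩
              have hb := good_bound (k := k') hF hnice
                (hm0.trans (Nat.fib_mono (by omega)))
                ((hfib L).trans (Nat.fib_mono (by omega))) ht1 hi ht2 hall
              have e1 : φ ^ (2 * (k' + 2 + 1)) = φ ^ 6 * (φ ^ k' * φ ^ k') := by ring
              have hk'0 : 0 < φ ^ k' := pow_pos hφ k'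
              have h1 : C * φ ^ k' ≤ K * (φ ^ (2 * (k' + 2 + 1)) * ((t : ℝ) - i)) := by
                calc C * φ ^ k' = C * φ ^ k' * 1 := by ring
                  _ ≤ C * φ ^ k' * (4 * φ ^ k' * ((t : ℝ) - i)) :=
                      mul_le_mul_of_nonneg_left hb.2 (by positivity)
                  _ = 4 * C * (φ ^ k' * φ ^ k' * ((t : ℝ) - i)) := by ring
                  _ ≤ K * φ ^ 6 * (φ ^ k' * φ ^ k' * ((t : ℝ) - i)) :=
                      mul_le_mul_of_nonneg_right hK2 (by positivity)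
                  _ = _ := by rw [e1]; ring
              have h2 := mul_nonneg hK0 (err_nonneg y k0 (k' + 2 + 1) i t)
              linarith [hb.1]
            · push Not at hgood
              have hE := E_all y (k + 1) ht1.le hgood
              have h1 := ih i t ht1.le (hi.mono (Nat.le_succ k)) (ht2.mono (Nat.le_succ k))
              have e2 : err y k0 (k + 1) i t = err y k0 k i t + φ ^ (2 * k) * ((t : ℝ) - i) := by
                unfold err
                rw [Finset.sum_Ico_succ_top hk, hE]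
              rw [e2]
              have h3 : 0 ≤ K * (φ ^ (2 * (k + 1)) * ((t : ℝ) - i)) := by positivity
              linarith
          rw [sum_Ico_split _ ht1.le htj, err_split y k0 (k + 1) ht1.le htj]
          refine (abs_add_le _ _).trans ?_
          have := add_le_add hfirst hrest
          calc _ ≤ _ := this
            _ = _ := by ring
    intro i j hij hi hj
    exact main _ i j hij le_rfl hi hj

end Pool.Agent.H754R3.Sturm
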