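import Mathlib

/-!
# Lattice-gas interactions on `{0,1}^ℤ`, ground states, Sturmian measures
-/

namespace Pool.Agent.H754R3.Sturm

open MeasureTheory

/-- Configurations: elements of `{0,1}^ℤ` (`false` is `0`, `true` is `1`). -/
abbrev Cfg := ℤ → Bool

/-- The translation `(T_a X)_i = X_{i-a}`. -/
def shift (a : ℤ) (x : Cfg) : Cfg := fun i => x (i - a)

/-- A translation-invariant family `Φ_Λ`, `Λ ⊂ ℤ` finite, where `Φ_Λ` is a real function of the
restriction of a configuration to `Λ`. -/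
structure Interaction where
  /-- the value `Φ_Λ(x)` -/
  val : Finset ℤ → Cfg → ℝ
  local_dep : ∀ (Λ : Finset ℤ) (x y : Cfg), (∀ i ∈ Λ, x i = y i) → val Λ x = val Λ y
  transl : ∀ (a : ℤ) (Λ : Finset ℤ) (x : Cfg), val (Λ.image (fun i => i + a)) (shift a x) = val Λ x

namespace Interaction

/-- The supremum norm of `Φ_Λ`. -/
noncomputable def norm (Φ : Interaction) (Λ : Finset ℤ) : ℝ := ⨆ x : Cfg, |Φ.val Λ x|

/-- The interaction is summable: `∑_{Λ ∋ 0} ‖Φ_Λ‖ < ∞`. -/
def IsSummable (Φ : Interaction) : Prop :=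
  Summable fun Λ : {Λ : Finset ℤ // (0 : ℤ) ∈ Λ} => Φ.norm Λ.1

/-- The interaction is finite-range: `Φ_Λ = 0` whenever the diameter of `Λ` exceeds some `r`. -/
def FiniteRange (Φ : Interaction) : Prop :=
  ∃ r : ℤ, ∀ Λ : Finset ℤ, (∃ i ∈ Λ, ∃ j ∈ Λ, r < |i - j|) → ∀ x, Φ.val Λ x = 0

/-- The interaction `Φ + ε Φ'`. -/
def addSMul (Φ : Interaction) (ε : ℝ) (Φ' : Interaction) : Interaction where
  val := fun Λ x => Φ.val Λ x + ε * Φ'.val Λ x
  local_dep := fun Λ x y h => by rw [Φ.local_dep Λ x y h, Φ'.local_dep Λ x y h]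
  transl := fun a Λ x => by rw [Φ.transl, Φ'.transl]

/-- `H(Y|X) = ∑_Λ (Φ_Λ(Y) - Φ_Λ(X))`. -/
noncomputable def relH (Φ : Interaction) (y x : Cfg) : ℝ :=
  ∑' Λ : Finset ℤ, (Φ.val Λ y - Φ.val Λ x)

/-- `x` is a ground-state configuration: `H(Y|X) ≥ 0` for every local excitation `Y` of `X`. -/
def IsGroundConfig (Φ : Interaction) (x : Cfg) : Prop :=
  ∀ y : Cfg, {i | y i ≠ x i}.Finite → 0 ≤ Φ.relH y x

/-- `μ` is a ground state: a translation-invariant probability measure supported on ground-state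
configurations. -/
def IsGroundState (Φ : Interaction) (μ : Measure Cfg) : Prop :=
  IsProbabilityMeasure μ ∧ (∀ a : ℤ, μ.map (shift a) = μ) ∧ ∀ᵐ x ∂μ, Φ.IsGroundConfig x

/-- `μ` is a zero-temperature stable ground state of `Φ`: for every finite-range `Φ'` there is
`ε₀ > 0` such that `μ` is a ground state of `Φ + ε Φ'` for all `0 < ε < ε₀`. -/
def IsStable (Φ : Interaction) (μ : Measure Cfg) : Prop :=
  ∀ Φ' : Interaction, Φ'.FiniteRange →
    ∃ ε₀ : ℝ, 0 < ε₀ ∧ ∀ ε : ℝ, 0 < ε → ε < ε₀ → (Φ.addSMul ε Φ').IsGroundState μ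

end Interaction

/-- The Sturmian sequence of `φ`: `X_n = 0` if `nφ mod 1 ∈ [0,φ)` and `X_n = 1` otherwise. -/
noncomputable def sturmian (φ : ℝ) : Cfg := fun n => if Int.fract (n * φ) < φ then false else true

/-- The closure of the shift orbit of the Sturmian sequence. -/
def orbitClosure (φ : ℝ) : Set Cfg := closure (Set.range fun a : ℤ => shift a (sturmian φ))

/-- `ρ` is the Sturmian measure of `φ`: the unique translation-invariant probability measure
carried by the closure of the shift orbit of the Sturmian sequence of `φ`. -/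
def IsSturmianMeasure (φ : ℝ) (ρ : Measure Cfg) : Prop :=
  (IsProbabilityMeasure ρ ∧ (∀ a : ℤ, ρ.map (shift a) = ρ) ∧ ∀ᵐ x ∂ρ, x ∈ orbitClosure φ) ∧
  ∀ ρ' : Measure Cfg, IsProbabilityMeasure ρ' → (∀ a : ℤ, ρ'.map (shift a) = ρ') →
    (∀ᵐ x ∂ρ', x ∈ orbitClosure φ) → ρ' = ρ

end Pool.Agent.H754R3.Sturm
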