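import Pool.Agent.H754R3.Sturm.Defs

/-!
# The golden rotation
-/

namespace Pool.Agent.H754R3.Sturm

/-- The golden slope `(√5 - 1)/2`. -/
noncomputable def φ : ℝ := (√5 - 1) / 2

lemma sqrt5_sq : √(5 : ℝ) ^ 2 = 5 := Real.sq_sqrt (by norm_num)

lemma sqrt5_gt : (2.2 : ℝ) < √5 := by
  rw [Real.lt_sqrt (by norm_num)]; norm_num

lemma sqrt5_lt : √(5 : ℝ) < 2.25 := by
  rw [Real.sqrt_lt' (by norm_num)]; norm_num

lemma φ_sq : φ ^ 2 = 1 - φ := by
  unfold φ
  have := sqrt5_sq
  linear_combination this / 4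

lemma φ_gt : (0.6 : ℝ) < φ := by unfold φ; linarith [sqrt5_gt]

lemma φ_lt : φ < (0.625 : ℝ) := by unfold φ; linarith [sqrt5_lt]

lemma φ_pos : 0 < φ := by linarith [φ_gt]

lemma φ_lt_one : φ < 1 := by linarith [φ_lt]

lemma irrational_φ : Irrational φ := by
  have h5 : Irrational (√5) := Nat.Prime.irrational_sqrt (by norm_num : Nat.Prime 5)
  have h1 : Irrational (√5 - (1 : ℚ)) := h5.sub_ratCast 1
  have h2 := h1.div_ratCast (q := 2) (by norm_num)
  convert h2 using 1
  unfold φ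
  norm_num

/-- The Sturmian sequence of the golden slope. -/
noncomputable def X : Cfg := sturmian φ

/-- `g(n) = {nφ}`. -/
noncomputable def g (n : ℤ) : ℝ := Int.fract (n * φ)

lemma X_eq (n : ℤ) : X n = if g n < φ then false else true := rfl

lemma g_nonneg (n : ℤ) : 0 ≤ g n := Int.fract_nonneg _

lemma g_lt_one (n : ℤ) : g n < 1 := Int.fract_lt_one _

lemma fract_add_eq (a b : ℝ) : Int.fract (a + b) = Int.fract a + Int.fract b
    - (if Int.fract a + Int.fract b < 1 then 0 else 1) := by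
  split_ifs with h
  · rw [sub_zero, Int.fract_eq_iff]
    refine ⟨by linarith [Int.fract_nonneg a, Int.fract_nonneg b], h, ⌊a⌋ + ⌊b⌋, ?_⟩
    push_cast
    linarith [Int.floor_add_fract a, Int.floor_add_fract b]
  · rw [Int.fract_eq_iff]
    refine ⟨by linarith [not_lt.mp h], by linarith [Int.fract_lt_one a, Int.fract_lt_one b],
      ⌊a⌋ + ⌊b⌋ + 1, ?_⟩
    push_cast
    linarith [Int.floor_add_fract a, Int.floor_add_fract b]

lemma g_add (m n : ℤ) : g (m + n) = g m + g n - (if g m + g n < 1 then 0 else 1) := by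
  unfold g
  rw [← fract_add_eq]
  congr 1
  push_cast
  ring

lemma g_zero : g 0 = 0 := by simp [g]

lemma g_one : g 1 = φ := by
  unfold g
  rw [Int.fract_eq_self.mpr]
  · simp
  · constructor <;> push_cast <;> linarith [φ_pos, φ_lt_one]

/-- the norm form is bounded below -/
lemma bad_approx (m p : ℤ) (hm : m ≠ 0) : 1 / (4 * |(m : ℝ)|) ≤ |m * φ - p| := by
  have hm1 : (1 : ℝ) ≤ |(m : ℝ)| := by
    have : 1 ≤ |m| := Int.one_le_abs hm
    exact_mod_cast this
  have hN : ((-m ^ 2 + m * p + p ^ 2 : ℤ) : ℝ) = (m * φ - p) * (m * (-1 - φ) - p) := by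
    push_cast
    have := φ_sq
    linear_combination (m : ℝ) ^ 2 * this
  have hN0 : (-m ^ 2 + m * p + p ^ 2 : ℤ) ≠ 0 := by
    intro h
    rw [h, Int.cast_zero] at hN
    rcases mul_eq_zero.mp hN.symm with h1 | h1
    · apply irrational_φ
      refine ⟨(p : ℚ) / m, ?_⟩
      push_cast
      have : (m : ℝ) ≠ 0 := by exact_mod_cast hm
      field_simp
      linarith
    · apply irrational_φ
      refine ⟨-1 - (p : ℚ) / m, ?_⟩
      push_cast
      have : (m : ℝ) ≠ 0 := by exact_mod_cast hm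
      field_simp
      linarith
  have h1 : (1 : ℝ) ≤ |m * φ - p| * |m * (-1 - φ) - p| := by
    rw [← abs_mul, ← hN]
    have := Int.one_le_abs hN0
    exact_mod_cast this
  by_contra hlt
  push Not at hlt
  have hpos : 0 < 4 * |(m : ℝ)| := by linarith
  have hle : 1 / (4 * |(m : ℝ)|) ≤ 1 / 4 := by
    apply one_div_le_one_div_of_le (by norm_num)
    linarith
  have h2 : |m * (-1 - φ) - p| ≤ |(m : ℝ)| * (9 / 4) + |m * φ - p| := by
    have e : (m : ℝ) * (-1 - φ) - p = -(m * (1 + 2 * φ)) + (m * φ - p) := by ring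
    rw [e]
    refine (abs_add_le _ _).trans ?_
    rw [abs_neg, abs_mul]
    have : |1 + 2 * φ| ≤ 9 / 4 := by
      rw [abs_of_pos (by linarith [φ_pos])]; linarith [φ_lt]
    have := mul_le_mul_of_nonneg_left this (abs_nonneg (m : ℝ))
    linarith
  have h3 : |m * (-1 - φ) - p| < 4 * |(m : ℝ)| := by linarith
  have h4 : |m * φ - p| * |m * (-1 - φ) - p| ≤ |m * φ - p| * (4 * |(m : ℝ)|) :=
    mul_le_mul_of_nonneg_left h3.le (abs_nonneg _)
  have h5 : |m * φ - p| * (4 * |(m : ℝ)|) < 1 / (4 * |(m : ℝ)|) * (4 * |(m : ℝ)|) :=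
    mul_lt_mul_of_pos_right hlt hpos
  rw [one_div, inv_mul_cancel₀ hpos.ne'] at h5
  linarith

lemma fib_mul_φ (k : ℕ) : (Nat.fib (k + 1) : ℝ) * φ - Nat.fib k = (-1) ^ k * φ ^ (k + 1) := by
  induction k using Nat.twoStepInduction with
  | zero => simp
  | one =>
    have := φ_sq
    norm_num
    linarith
  | more k ih1 ih2 =>
    have h2 : (Nat.fib (k + 2) : ℝ) = Nat.fib k + Nat.fib (k + 1) := by
      rw [Nat.fib_add_two]; push_cast; ring
    have h3 : (Nat.fib (k + 2 + 1) : ℝ) = Nat.fib (k + 1) + Nat.fib (k + 1 + 1) := by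
      rw [show k + 2 + 1 = (k + 1) + 2 by ring, Nat.fib_add_two]; push_cast; ring
    have e1 : (-1 : ℝ) ^ (k + 2) * φ ^ (k + 2 + 1)
        = (-1) ^ k * φ ^ (k + 1) + (-1) ^ (k + 1) * φ ^ (k + 1 + 1) := by
      have := φ_sq
      ring_nf
      linear_combination (-1 : ℝ) ^ k * φ ^ k * φ * this
    rw [e1, h3, ← ih1, ← ih2, h2]
    ring

lemma fib_le (k : ℕ) : (Nat.fib k : ℝ) * φ ^ k ≤ 1 := by
  induction k using Nat.twoStepInduction with
  | zero => simp
  | one => simp; exact φ_lt_one.le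
  | more k ih1 ih2 =>
    rw [Nat.fib_add_two]
    push_cast
    have e : ((Nat.fib k : ℝ) + Nat.fib (k + 1)) * φ ^ (k + 2)
        = (Nat.fib k * φ ^ k) * φ ^ 2 + (Nat.fib (k + 1) * φ ^ (k + 1)) * φ := by ring
    rw [e]
    have h1 := mul_le_mul_of_nonneg_right ih1 (sq_nonneg φ)
    have h2 := mul_le_mul_of_nonneg_right ih2 φ_pos.le
    have := φ_sq
    linarith

/-- Quantitative density of the golden rotation. -/
lemma cover (k : ℕ) : ∀ (x : ℝ) (a : ℤ), ∃ j : ℤ, a ≤ j ∧ j < a + Nat.fib (k + 2) ∧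
    ∃ p : ℤ, x ≤ j * φ - p ∧ j * φ - p < x + φ ^ k := by
  induction k with
  | zero =>
    intro x a
    refine ⟨a, le_refl a, by simp, ⌊a * φ - x⌋, ?_, ?_⟩
    · linarith [Int.floor_le ((a : ℝ) * φ - x)]
    · rw [pow_zero]; linarith [Int.lt_floor_add_one ((a : ℝ) * φ - x)]
  | succ k ih =>
    intro x a
    have hfib : (Nat.fib (k + 1 + 2) : ℤ) = Nat.fib (k + 1) + Nat.fib (k + 2) := by
      rw [Nat.fib_add_two]; push_cast; ring
    have hφ := fib_mul_φ k
    have hpow : φ ^ k - φ ^ (k + 1) ≤ φ ^ (k + 1) := by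
      have h1 : φ ^ (k + 1) = φ ^ k * φ := pow_succ φ k
      have h2 : 0 < φ ^ k := pow_pos φ_pos k
      rw [h1]
      nlinarith [φ_gt]
    have hf0 : (0 : ℤ) ≤ Nat.fib (k + 1) := by positivity
    rcases Nat.even_or_odd k with hk | hk
    · -- move by `-fib (k+1)`
      rw [hk.neg_one_pow, one_mul] at hφ
      obtain ⟨j, h1, h2, p, h3, h4⟩ := ih x (a + Nat.fib (k + 1))
      by_cases hj : j * φ - p < x + φ ^ (k + 1)
      · exact ⟨j, by linarith, by rw [hfib]; linarith, p, h3, hj⟩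
      · push Not at hj
        refine ⟨j - Nat.fib (k + 1), by linarith, by rw [hfib]; linarith,
          p - Nat.fib k, ?_, ?_⟩
        · push_cast; linarith
        · push_cast; linarith
    · rw [hk.neg_one_pow] at hφ
      obtain ⟨j, h1, h2, p, h3, h4⟩ := ih x a
      by_cases hj : j * φ - p < x + φ ^ (k + 1)
      · exact ⟨j, h1, by rw [hfib]; linarith, p, h3, hj⟩
      · push Not at hj
        refine ⟨j + Nat.fib (k + 1), by linarith, by rw [hfib]; linarith,
          p + Nat.fib k, ?_, ?_⟩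
        · push_cast; linarith
        · push_cast; linarith

end Pool.Agent.H754R3.Sturm
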