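import Pool.Agent.H754R3.Sturm.Inter

/-!
# The golden interaction
-/

namespace Pool.Agent.H754R3.Sturm

open Finset

/-- `Λ` is an interval `[a - fib (k+6), a + fib (k+6)]`. -/
def IsWindow (Λ : Finset ℤ) : Prop := ∃ (a : ℤ) (k : ℕ), Λ = Finset.Icc (a - rad k) (a + rad k)

/-- The restriction of `y` to `Λ` is a restriction of a translate of the Sturmian sequence. -/
def Occurs (Λ : Finset ℤ) (y : Cfg) : Prop := ∃ c : ℤ, ∀ i ∈ Λ, y i = X (i + c)

lemma occurs_congr {Λ : Finset ℤ} {x y : Cfg} (h : ∀ i ∈ Λ, x i = y i) (hx : Occurs Λ x) :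
    Occurs Λ y := by
  obtain ⟨c, hc⟩ := hx
  exact ⟨c, fun i hi => by rw [← h i hi, hc i hi]⟩

lemma occurs_tr (a : ℤ) {Λ : Finset ℤ} {x : Cfg} :
    Occurs (Λ.image (fun i => i + a)) (shift a x) ↔ Occurs Λ x := by
  constructor
  · rintro ⟨c, hc⟩
    refine ⟨a + c, fun i hi => ?_⟩
    have := hc (i + a) (Finset.mem_image_of_mem _ hi)
    simp only [shift, add_sub_cancel_right] at this
    rw [this, add_assoc]
  · rintro ⟨c, hc⟩
    refine ⟨c - a, fun i hi => ?_⟩
    obtain ⟨j, hj, rfl⟩ := Finset.mem_image.mp hi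
    simp only [shift, add_sub_cancel_right]
    rw [hc j hj]
    congr 1; ring

lemma image_Icc (a b c : ℤ) : (Finset.Icc b c).image (fun i => i + a) = Finset.Icc (b + a) (c + a) := by
  ext i
  simp only [Finset.mem_image, Finset.mem_Icc]
  constructor
  · rintro ⟨j, hj, rfl⟩
    constructor <;> linarith
  · intro h
    exact ⟨i - a, ⟨by linarith, by linarith⟩, by ring⟩

lemma isWindow_tr (a : ℤ) {Λ : Finset ℤ} : IsWindow (Λ.image (fun i => i + a)) ↔ IsWindow Λ := by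
  constructor
  · rintro ⟨b, k, h⟩
    refine ⟨b - a, k, ?_⟩
    apply (Interaction.tr a).injective
    change Λ.image (fun i => i + a) = (Finset.Icc _ _).image (fun i => i + a)
    rw [h, image_Icc]
    congr 1 <;> ring
  · rintro ⟨b, k, rfl⟩
    refine ⟨b + a, k, ?_⟩
    rw [image_Icc]
    congr 1 <;> ring

open Classical in
/-- The golden interaction: `Φ_Λ(y) = |Λ|^{-2}` if `Λ` is an interval `[a - fib (k+6), a + fib (k+6)]`
and the word of `y` on `Λ` does not occur in the Sturmian sequence; `Φ_Λ(y) = 0` otherwise. -/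
noncomputable def golden : Interaction where
  val := fun Λ y => if IsWindow Λ ∧ ¬ Occurs Λ y then 1 / (Λ.card : ℝ) ^ 2 else 0
  local_dep := by
    intro Λ x y h
    have : Occurs Λ x ↔ Occurs Λ y :=
      ⟨occurs_congr h, occurs_congr fun i hi => (h i hi).symm⟩
    simp only [this]
  transl := by
    intro a Λ x
    simp only [occurs_tr, isWindow_tr]
    rw [Finset.card_image_of_injective]
    intro i j h
    simpa using h

lemma golden_nonneg (Λ : Finset ℤ) (y : Cfg) : 0 ≤ golden.val Λ y := by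
  simp only [golden]
  split_ifs
  · positivity
  · exact le_rfl

lemma card_window (a : ℤ) (k : ℕ) : ((Finset.Icc (a - rad k) (a + rad k)).card : ℝ)
    = 2 * (Nat.fib (k + 6) : ℝ) + 1 := by
  rw [Int.card_Icc]
  have : (a + rad k + 1 - (a - rad k)) = ((2 * Nat.fib (k + 6) + 1 : ℕ) : ℤ) := by
    unfold rad; push_cast; ring
  rw [this, Int.toNat_natCast]
  push_cast; ring

lemma window_inj {a b : ℤ} {k l : ℕ}
    (h : Finset.Icc (a - rad k) (a + rad k) = Finset.Icc (b - rad l) (b + rad l)) :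
    a = b ∧ k = l := by
  have h0 : ∀ n, (0 : ℤ) < rad n := fun n => by
    unfold rad; exact_mod_cast Nat.fib_pos.mpr (by omega)
  have h1 : a - rad k ∈ Finset.Icc (b - rad l) (b + rad l) := by
    rw [← h, Finset.mem_Icc]; constructor <;> linarith [h0 k]
  have h2 : a + rad k ∈ Finset.Icc (b - rad l) (b + rad l) := by
    rw [← h, Finset.mem_Icc]; constructor <;> linarith [h0 k]
  have h3 : b - rad l ∈ Finset.Icc (a - rad k) (a + rad k) := by
    rw [h, Finset.mem_Icc]; constructor <;> linarith [h0 l]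
  have h4 : b + rad l ∈ Finset.Icc (a - rad k) (a + rad k) := by
    rw [h, Finset.mem_Icc]; constructor <;> linarith [h0 l]
  rw [Finset.mem_Icc] at h1 h2 h3 h4
  have e1 : a - rad k = b - rad l := le_antisymm h3.1 h1.1 |>.symm ▸ rfl
  have e2 : a + rad k = b + rad l := le_antisymm h2.2 h4.2
  have hab : a = b := by linarith
  have hr : rad k = rad l := by linarith
  refine ⟨hab, ?_⟩
  unfold rad at hr
  have hr' : Nat.fib (k + 6) = Nat.fib (l + 6) := by exact_mod_cast hr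
  rcases lt_trichotomy k l with h | h | h
  · exact absurd hr' (Nat.fib_add_two_strictMono (show k + 4 < l + 4 by omega)).ne
  · exact h
  · exact absurd hr'.symm (Nat.fib_add_two_strictMono (show l + 4 < k + 4 by omega)).ne

lemma fib_ge (k : ℕ) : (3 / 2 : ℝ) ^ k ≤ Nat.fib (k + 6) := by
  induction k using Nat.twoStepInduction with
  | zero =>
    have : Nat.fib (0 + 6) = 8 := by decide
    rw [this]; norm_num
  | one =>
    have : Nat.fib (1 + 6) = 13 := by decide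
    rw [this]; norm_num
  | more k ih1 ih2 =>
    rw [show k + 2 + 6 = (k + 6) + 2 by ring, Nat.fib_add_two]
    push_cast
    rw [show k + 6 + 1 = k + 1 + 6 by ring]
    have h : (3 / 2 : ℝ) ^ (k + 2) ≤ (3 / 2 : ℝ) ^ k + (3 / 2 : ℝ) ^ (k + 1) := by
      have h0 : 0 < (3 / 2 : ℝ) ^ k := by positivity
      have e1 : (3 / 2 : ℝ) ^ (k + 2) = (3 / 2 : ℝ) ^ k * (9 / 4) := by ring
      have e2 : (3 / 2 : ℝ) ^ (k + 1) = (3 / 2 : ℝ) ^ k * (3 / 2) := by ring
      rw [e1, e2]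
      linarith
    linarith

lemma golden_norm_le (Λ : Finset ℤ) (a : ℤ) (k : ℕ)
    (h : Λ = Finset.Icc (a - rad k) (a + rad k)) :
    golden.norm Λ ≤ 1 / (2 * (Nat.fib (k + 6) : ℝ) + 1) ^ 2 := by
  apply golden.norm_le
  intro x
  rw [abs_of_nonneg (golden_nonneg _ _)]
  simp only [golden]
  split_ifs
  · rw [h, card_window]
  · positivity

lemma golden_norm_eq_zero (Λ : Finset ℤ) (h : ¬ IsWindow Λ) : golden.norm Λ = 0 := by
  apply le_antisymm _ (golden.norm_nonneg Λ)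
  apply golden.norm_le
  intro x
  simp [golden, h]

theorem golden_summable : golden.IsSummable := by
  classical
  apply golden.isSummable_of_u
  refine summable_of_sum_le (c := 3) (golden.u_nonneg 0) ?_
  intro S
  -- restrict to windows containing 0
  set S' := S.filter (fun Λ => IsWindow Λ ∧ (0 : ℤ) ∈ Λ) with hS'
  have h1 : ∑ Λ ∈ S, golden.u 0 Λ = ∑ Λ ∈ S', golden.norm Λ := by
    rw [hS', Finset.sum_filter]
    refine Finset.sum_congr rfl fun Λ _ => ?_
    unfold Interaction.u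
    by_cases h0 : (0 : ℤ) ∈ Λ
    · by_cases hw : IsWindow Λ
      · rw [if_pos h0, if_pos ⟨hw, h0⟩]
      · rw [if_pos h0, if_neg (fun h => hw h.1), golden_norm_eq_zero _ hw]
    · rw [if_neg h0, if_neg (fun h => h0 h.2)]
  rw [h1]
  -- choose centre and level
  have hch : ∀ Λ ∈ S', ∃ p : ℕ × ℤ, Λ = Finset.Icc (p.2 - rad p.1) (p.2 + rad p.1) := by
    intro Λ hΛ
    rw [hS', Finset.mem_filter] at hΛ
    obtain ⟨a, k, h⟩ := hΛ.2.1
    exact ⟨(k, a), h⟩
  choose! p hp using hch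
  obtain ⟨K, hK⟩ : ∃ K : ℕ, ∀ Λ ∈ S', (p Λ).1 < K :=
    ⟨(S'.sup fun Λ => (p Λ).1) + 1, fun Λ hΛ =>
      Nat.lt_succ_of_le (Finset.le_sup (f := fun Λ => (p Λ).1) hΛ)⟩
  have hinj : Set.InjOn p (S' : Set (Finset ℤ)) := by
    intro Λ hΛ Λ' hΛ' h
    rw [hp Λ hΛ, hp Λ' hΛ', h]
  calc ∑ Λ ∈ S', golden.norm Λ
      ≤ ∑ Λ ∈ S', 1 / (2 * (Nat.fib ((p Λ).1 + 6) : ℝ) + 1) ^ 2 :=
        Finset.sum_le_sum fun Λ hΛ => golden_norm_le Λ _ _ (hp Λ hΛ)
    _ = ∑ q ∈ S'.image p, 1 / (2 * (Nat.fib (q.1 + 6) : ℝ) + 1) ^ 2 := by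
        rw [Finset.sum_image hinj]
    _ ≤ ∑ q ∈ (Finset.range K).sigma (fun k => Finset.Icc (-rad k) (rad k)) |>.image
          (fun s => ((s.1, s.2) : ℕ × ℤ)), 1 / (2 * (Nat.fib (q.1 + 6) : ℝ) + 1) ^ 2 := by
        apply Finset.sum_le_sum_of_subset_of_nonneg
        · intro q hq
          obtain ⟨Λ, hΛ, rfl⟩ := Finset.mem_image.mp hq
          rw [Finset.mem_image]
          refine ⟨⟨(p Λ).1, (p Λ).2⟩, ?_, rfl⟩
          rw [Finset.mem_sigma]
          refine ⟨Finset.mem_range.mpr (hK Λ hΛ), ?_⟩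
          have h0 : (0 : ℤ) ∈ Λ := by
            rw [hS', Finset.mem_filter] at hΛ; exact hΛ.2.2
          rw [hp Λ hΛ, Finset.mem_Icc] at h0
          rw [Finset.mem_Icc]
          simp only
          constructor <;> linarith [h0.1, h0.2]
        · intro q _ _
          positivity
    _ = ∑ k ∈ Finset.range K, ∑ _a ∈ Finset.Icc (-rad k) (rad k),
          1 / (2 * (Nat.fib (k + 6) : ℝ) + 1) ^ 2 := by
        rw [Finset.sum_image, Finset.sum_sigma]
        intro s _ t _ h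
        simp only [Prod.mk.injEq] at h
        obtain ⟨s1, s2⟩ := s
        obtain ⟨t1, t2⟩ := t
        obtain ⟨h1, h2⟩ := h
        simp only at h1 h2
        subst h1 h2
        rfl
    _ ≤ ∑ k ∈ Finset.range K, (2 / 3 : ℝ) ^ k := by
        refine Finset.sum_le_sum fun k _ => ?_
        rw [Finset.sum_const, nsmul_eq_mul]
        have hc := card_window 0 k
        rw [zero_sub, zero_add] at hc
        rw [hc]
        have hf := fib_ge k
        have hpos : (0 : ℝ) < (3 / 2 : ℝ) ^ k := by positivity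
        have e : (2 / 3 : ℝ) ^ k = 1 / (3 / 2 : ℝ) ^ k := by
          rw [one_div, ← inv_pow]; norm_num
        rw [e, sq, mul_one_div, div_mul_eq_div_div, div_self (by positivity)]
        apply one_div_le_one_div_of_le hpos
        linarith
    _ ≤ 3 := by
        have := sum_geometric_two_le 0
        have hg : ∑ k ∈ Finset.range K, (2 / 3 : ℝ) ^ k = (1 - (2 / 3 : ℝ) ^ K) * 3 := by
          have := geom_sum_eq (x := (2 / 3 : ℝ)) (by norm_num) K
          rw [this]; ring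
        rw [hg]
        have : 0 < (2 / 3 : ℝ) ^ K := by positivity
        linarith

/-! ## Energies over allowed configurations -/

/-- All words of `x` occur in the Sturmian sequence. -/
def AllAllowed (x : Cfg) : Prop := ∀ a b : ℤ, Allowed x a b

lemma occurs_of_allAllowed {x : Cfg} (hx : AllAllowed x) {Λ : Finset ℤ} (hΛ : IsWindow Λ) :
    Occurs Λ x := by
  obtain ⟨a, k, rfl⟩ := hΛ
  obtain ⟨c, hc⟩ := hx (a - rad k) (a + rad k)
  exact ⟨c, fun i hi => hc i (Finset.mem_Icc.mp hi).1 (Finset.mem_Icc.mp hi).2⟩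

lemma golden_val_zero {x : Cfg} (hx : AllAllowed x) (Λ : Finset ℤ) : golden.val Λ x = 0 := by
  simp only [golden]
  rw [if_neg]
  rintro ⟨h1, h2⟩
  exact h2 (occurs_of_allAllowed hx h1)

lemma relH_golden {x y : Cfg} (hx : AllAllowed x) : golden.relH y x = ∑' Λ, golden.val Λ y := by
  unfold Interaction.relH
  exact tsum_congr fun Λ => by rw [golden_val_zero hx, sub_zero]

lemma summable_golden {x y : Cfg} (hx : AllAllowed x) (hD : {i | y i ≠ x i}.Finite) :
    Summable fun Λ => golden.val Λ y := by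
  have := golden.summable_diff golden_summable hD
  refine this.congr fun Λ => ?_
  rw [golden_val_zero hx, sub_zero]

lemma relH_golden_nonneg {x y : Cfg} (hx : AllAllowed x) : 0 ≤ golden.relH y x := by
  rw [relH_golden hx]
  exact tsum_nonneg fun Λ => golden_nonneg Λ y

lemma golden_val_bad {y : Cfg} {a : ℤ} {k : ℕ} (h : ¬ Allowed y (a - rad k) (a + rad k)) :
    golden.val (Finset.Icc (a - rad k) (a + rad k)) y = 1 / (2 * (Nat.fib (k + 6) : ℝ) + 1) ^ 2 := by
  simp only [golden]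
  rw [if_pos, card_window]
  refine ⟨⟨a, k, rfl⟩, ?_⟩
  rintro ⟨c, hc⟩
  exact h ⟨c, fun i h1 h2 => hc i (Finset.mem_Icc.mpr ⟨h1, h2⟩)⟩

lemma scale_bound (l : ℕ) :
    φ ^ (2 * l) ≤ 9 * (φ⁻¹) ^ 14 * (1 / (2 * (Nat.fib (l + 1 + 6) : ℝ) + 1) ^ 2) := by
  have h1 := fib_le (l + 7)
  have hφ := φ_pos
  have hl : 0 < φ ^ l := pow_pos hφ l
  have hf : (1 : ℝ) ≤ Nat.fib (l + 7) := by
    exact_mod_cast Nat.fib_pos.mpr (by omega)
  have h2 : (Nat.fib (l + 7) : ℝ) * φ ^ l ≤ (φ⁻¹) ^ 7 := by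
    have e : (Nat.fib (l + 7) : ℝ) * φ ^ l
        = (Nat.fib (l + 7) : ℝ) * φ ^ (l + 7) * (φ⁻¹) ^ 7 := by
      rw [pow_add, inv_pow]
      field_simp
    rw [e]
    calc _ ≤ 1 * (φ⁻¹) ^ 7 := mul_le_mul_of_nonneg_right h1 (by positivity)
      _ = _ := one_mul _
  have h3 : (2 * (Nat.fib (l + 7) : ℝ) + 1) * φ ^ l ≤ 3 * (φ⁻¹) ^ 7 := by nlinarith
  have h4 : ((2 * (Nat.fib (l + 7) : ℝ) + 1) * φ ^ l) ^ 2 ≤ (3 * (φ⁻¹) ^ 7) ^ 2 :=
    pow_le_pow_left₀ (by positivity) h3 2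
  rw [show l + 1 + 6 = l + 7 by ring, mul_one_div, le_div_iff₀ (by positivity)]
  calc φ ^ (2 * l) * (2 * (Nat.fib (l + 7) : ℝ) + 1) ^ 2
      = ((2 * (Nat.fib (l + 7) : ℝ) + 1) * φ ^ l) ^ 2 := by ring
    _ ≤ (3 * (φ⁻¹) ^ 7) ^ 2 := h4
    _ = _ := by ring

lemma err_le {x y : Cfg} (hx : AllAllowed x) (hD : {i | y i ≠ x i}.Finite) (k0 k : ℕ) (i j : ℤ) :
    err y k0 k i j ≤ 9 * (φ⁻¹) ^ 14 * golden.relH y x := by
  classical
  have hφ := φ_pos
  set T : Finset (ℕ × ℤ) := ((Ico k0 k) ×ˢ (Ico i j)).filter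
    (fun q => ¬ Allowed y (q.2 - rad (q.1 + 1)) (q.2 + rad (q.1 + 1))) with hT
  have h1 : err y k0 k i j = ∑ q ∈ T, φ ^ (2 * q.1) := by
    rw [hT, Finset.sum_filter, Finset.sum_product]
    unfold err E
    refine Finset.sum_congr rfl fun l _ => ?_
    rw [Finset.mul_sum]
    refine Finset.sum_congr rfl fun p _ => ?_
    simp only
    split_ifs <;> simp
  have hinj : Set.InjOn (fun q : ℕ × ℤ => Finset.Icc (q.2 - rad (q.1 + 1)) (q.2 + rad (q.1 + 1)))
      (T : Set (ℕ × ℤ)) := by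
    rintro ⟨l, p⟩ _ ⟨l', p'⟩ _ h
    obtain ⟨h2, h3⟩ := window_inj h
    simp only [Prod.mk.injEq]
    exact ⟨by omega, h2⟩
  rw [h1, relH_golden hx]
  calc ∑ q ∈ T, φ ^ (2 * q.1)
      ≤ ∑ q ∈ T, 9 * (φ⁻¹) ^ 14 *
          golden.val (Finset.Icc (q.2 - rad (q.1 + 1)) (q.2 + rad (q.1 + 1))) y := by
        refine Finset.sum_le_sum fun q hq => ?_
        rw [hT, Finset.mem_filter] at hq
        rw [golden_val_bad hq.2]
        exact scale_bound q.1
    _ = 9 * (φ⁻¹) ^ 14 * ∑ Λ ∈ T.image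
          (fun q : ℕ × ℤ => Finset.Icc (q.2 - rad (q.1 + 1)) (q.2 + rad (q.1 + 1))),
          golden.val Λ y := by
        rw [Finset.sum_image hinj, Finset.mul_sum]
    _ ≤ _ := by
        apply mul_le_mul_of_nonneg_left _ (by positivity)
        exact (summable_golden hx hD).sum_le_tsum _ (fun Λ _ => golden_nonneg Λ y)

lemma err_allAllowed {x : Cfg} (hx : AllAllowed x) (k0 k : ℕ) (i j : ℤ) :
    err x k0 k i j = 0 := by
  unfold err E
  refine Finset.sum_eq_zero fun l _ => ?_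
  rw [Finset.sum_eq_zero, mul_zero]
  intro p _
  rw [if_pos (hx _ _)]

lemma exists_mark_allowed {x : Cfg} (hx : AllAllowed x) (k : ℕ) (a : ℤ) :
    ∃ j : ℤ, a ≤ j ∧ j < a + Nat.fib (k + 5) ∧ Mark k x j := by
  obtain ⟨c, hc⟩ := hx (a - Nat.fib k) (a + Nat.fib (k + 5) + Nat.fib k)
  obtain ⟨m0, h1, h2, h3⟩ := exists_mark k (a + c)
  exact ⟨m0 - c, by linarith, by linarith, mark_of_allowed h3 fun i hi1 hi2 =>
    hc i (by linarith) (by linarith)⟩

/-- **Key inequality.** -/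
theorem key (Φ' : Interaction) (hΦ' : Φ'.FiniteRange) : ∃ K : ℝ, 0 ≤ K ∧ ∀ x : Cfg, AllAllowed x →
    ∀ y : Cfg, {i | y i ≠ x i}.Finite → |Φ'.relH y x| ≤ K * golden.relH y x := by
  obtain ⟨r0, hr0⟩ := hΦ'
  set r : ℕ := r0.toNat with hr
  have hrange : ∀ Λ : Finset ℤ, (∃ i ∈ Λ, ∃ j ∈ Λ, (r : ℤ) < |i - j|) → ∀ x, Φ'.val Λ x = 0 := by
    rintro Λ ⟨i, hi, j, hj, h⟩
    exact hr0 Λ ⟨i, hi, j, hj, lt_of_le_of_lt (Int.self_le_toNat r0) h⟩
  obtain ⟨ρ, K, k0, hK, hmul⟩ := multiscale (localFn_locF Φ' r)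
  have hφ := φ_pos
  refine ⟨K * (9 * (φ⁻¹) ^ 14), by positivity, fun x hx y hD => ?_⟩
  obtain ⟨M, hM⟩ : ∃ M : ℕ, ∀ s, y s ≠ x s → |s| ≤ M := by
    refine ⟨∑ s ∈ hD.toFinset, s.natAbs, fun s hs => ?_⟩
    have h1 : s ∈ hD.toFinset := by simpa using hs
    have := Finset.single_le_sum (f := fun s : ℤ => s.natAbs) (fun _ _ => Nat.zero_le _) h1
    rw [Int.abs_eq_natAbs]
    exact_mod_cast this
  -- bound for every large level
  have hlevel : ∀ k, k0 ≤ k → |Φ'.relH y x| ≤ K * (9 * (φ⁻¹) ^ 14) * golden.relH y x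
      + 2 * K * ((2 * M + r + 5) * φ ^ k + 4 * (φ⁻¹) ^ 5 * φ ^ k) := by
    intro k hk
    obtain ⟨i, hi1, hi2, hi3⟩ := exists_mark_allowed hx k
      (-(M : ℤ) - r - 2 - Nat.fib k - Nat.fib (k + 5))
    obtain ⟨j, hj1, hj2, hj3⟩ := exists_mark_allowed hx k ((M : ℤ) + Nat.fib k + 1)
    have hagree : ∀ s, (s < -(M : ℤ) ∨ (M : ℤ) < s) → y s = x s := by
      intro s hs
      by_contra hne
      have := abs_le.mp (hM s hne)
      rcases hs with h | h <;> linarith
    have hyi : Mark k y i := by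
      intro l hl
      have hl' := abs_lt.mp hl
      rw [hagree (i + l) (Or.inl (by linarith)), hi3 l hl]
    have hyj : Mark k y j := by
      intro l hl
      have hl' := abs_lt.mp hl
      rw [hagree (j + l) (Or.inr (by linarith)), hj3 l hl]
    have hf0 : (0 : ℤ) ≤ Nat.fib k := by positivity
    have hf5 : (0 : ℤ) ≤ Nat.fib (k + 5) := by positivity
    have hij : i ≤ j := by linarith
    have hrel := relH_eq_sum Φ' r hrange (x := x) (y := y) (i := i) (j := j) (by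
      intro s hs
      have := abs_le.mp (hM s hs)
      constructor <;> linarith)
    have h1 := hmul y k hk i j hij hyi hyj
    have h2 := hmul x k hk i j hij hi3 hj3
    rw [err_allAllowed hx, mul_zero, add_zero] at h2
    have h3 := err_le hx hD k0 k i j
    have e : ∑ n ∈ Ico i j, (locF Φ' r (look y n) - locF Φ' r (look x n))
        = ∑ n ∈ Ico i j, (locF Φ' r (look y n) - ρ) - ∑ n ∈ Ico i j, (locF Φ' r (look x n) - ρ) := by
      rw [← Finset.sum_sub_distrib]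
      refine Finset.sum_congr rfl fun n _ => by ring
    rw [hrel, e]
    have hlen : φ ^ (2 * k) * ((j : ℝ) - i) ≤ (2 * M + r + 5) * φ ^ k + 4 * (φ⁻¹) ^ 5 * φ ^ k := by
      have h4 : (j : ℝ) - i ≤ 2 * M + r + 5 + 4 * Nat.fib (k + 5) := by
        have h5 : j - i ≤ 2 * M + r + 5 + 2 * Nat.fib k + 2 * Nat.fib (k + 5) := by linarith
        have h6 : (Nat.fib k : ℤ) ≤ Nat.fib (k + 5) := by exact_mod_cast Nat.fib_mono (by omega)
        have h7 : j - i ≤ 2 * M + r + 5 + 4 * Nat.fib (k + 5) := by linarith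
        exact_mod_cast h7
      have hk2 : φ ^ (2 * k) = φ ^ k * φ ^ k := by ring
      have hk0 : 0 < φ ^ k := pow_pos hφ k
      have hk1 : φ ^ k ≤ 1 := pow_le_one₀ hφ.le φ_lt_one.le
      have h8 : (Nat.fib (k + 5) : ℝ) * φ ^ k ≤ (φ⁻¹) ^ 5 := by
        have h9 := fib_le (k + 5)
        have e : (Nat.fib (k + 5) : ℝ) * φ ^ k
            = (Nat.fib (k + 5) : ℝ) * φ ^ (k + 5) * (φ⁻¹) ^ 5 := by
          rw [pow_add, inv_pow]
          field_simp
        rw [e]
        calc _ ≤ 1 * (φ⁻¹) ^ 5 := mul_le_mul_of_nonneg_right h9 (by positivity)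
          _ = _ := one_mul _
      have hc : (0 : ℝ) ≤ 2 * M + r + 5 := by positivity
      calc φ ^ (2 * k) * ((j : ℝ) - i)
          ≤ φ ^ (2 * k) * (2 * M + r + 5 + 4 * Nat.fib (k + 5)) :=
            mul_le_mul_of_nonneg_left h4 (by positivity)
        _ = (2 * M + r + 5) * φ ^ k * φ ^ k + 4 * (Nat.fib (k + 5) * φ ^ k) * φ ^ k := by
            rw [hk2]; ring
        _ ≤ (2 * M + r + 5) * φ ^ k * 1 + 4 * (φ⁻¹) ^ 5 * φ ^ k := by
            apply add_le_add
            · exact mul_le_mul_of_nonneg_left hk1 (by positivity)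
            · exact mul_le_mul_of_nonneg_right (mul_le_mul_of_nonneg_left h8 (by norm_num)) hk0.le
        _ = _ := by ring
    have hKlen := mul_le_mul_of_nonneg_left hlen hK
    have hKerr := mul_le_mul_of_nonneg_left h3 hK
    calc _ ≤ _ := abs_sub _ _
      _ ≤ _ := add_le_add h1 h2
      _ ≤ _ := by linarith
  -- let the level tend to infinity
  have hlim : Filter.Tendsto (fun k : ℕ => K * (9 * (φ⁻¹) ^ 14) * golden.relH y x
      + 2 * K * ((2 * M + r + 5) * φ ^ k + 4 * (φ⁻¹) ^ 5 * φ ^ k)) Filter.atTop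
      (nhds (K * (9 * (φ⁻¹) ^ 14) * golden.relH y x
        + 2 * K * ((2 * M + r + 5) * 0 + 4 * (φ⁻¹) ^ 5 * 0))) := by
    have hpow : Filter.Tendsto (fun k : ℕ => φ ^ k) Filter.atTop (nhds 0) :=
      tendsto_pow_atTop_nhds_zero_of_lt_one hφ.le φ_lt_one
    exact tendsto_const_nhds.add (((hpow.const_mul _).add (hpow.const_mul _)).const_mul _)
  have := ge_of_tendsto hlim (Filter.eventually_atTop.mpr ⟨k0, hlevel⟩)
  simpa using this

end Pool.Agent.H754R3.Sturm
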