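import Pool.Agent.H754R3.Sturm.Comb

/-!
# General facts on interactions
-/

namespace Pool.Agent.H754R3.Sturm

open Finset

namespace Interaction

variable (Φ : Interaction)

lemma finite_range_val (Λ : Finset ℤ) : (Set.range (Φ.val Λ)).Finite := by
  let ext : (Λ → Bool) → Cfg := fun v i => if h : i ∈ Λ then v ⟨i, h⟩ else false
  refine (Set.finite_range (fun v : Λ → Bool => Φ.val Λ (ext v))).subset ?_
  rintro _ ⟨x, rfl⟩
  refine ⟨fun i => x i, ?_⟩
  apply Φ.local_dep
  intro i hi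
  simp only [ext]
  rw [dif_pos hi]

lemma bddAbove_abs (Λ : Finset ℤ) : BddAbove (Set.range fun x : Cfg => |Φ.val Λ x|) := by
  have h : (Set.range fun x : Cfg => |Φ.val Λ x|) = (fun t : ℝ => |t|) '' Set.range (Φ.val Λ) := by
    rw [← Set.range_comp]; rfl
  rw [h]
  exact ((Φ.finite_range_val Λ).image _).bddAbove

lemma abs_le_norm (Λ : Finset ℤ) (x : Cfg) : |Φ.val Λ x| ≤ Φ.norm Λ :=
  le_ciSup (Φ.bddAbove_abs Λ) x

lemma norm_nonneg (Λ : Finset ℤ) : 0 ≤ Φ.norm Λ :=
  (abs_nonneg _).trans (Φ.abs_le_norm Λ (fun _ => false))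

lemma norm_le {Λ : Finset ℤ} {c : ℝ} (h : ∀ x, |Φ.val Λ x| ≤ c) : Φ.norm Λ ≤ c := by
  have : Nonempty Cfg := ⟨fun _ => false⟩
  exact ciSup_le h

lemma shift_shift_neg (a : ℤ) (x : Cfg) : shift a (shift (-a) x) = x := by
  funext i
  simp only [shift]
  congr 1; ring

lemma norm_transl (a : ℤ) (Λ : Finset ℤ) : Φ.norm (Λ.image (fun i => i + a)) = Φ.norm Λ := by
  apply le_antisymm
  · apply Φ.norm_le
    intro x
    rw [← shift_shift_neg a x, Φ.transl]
    exact Φ.abs_le_norm _ _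
  · apply Φ.norm_le
    intro x
    rw [← Φ.transl a Λ x]
    exact Φ.abs_le_norm _ _

/-- `‖Φ_Λ‖` if `a ∈ Λ`, otherwise `0`. -/
noncomputable def u (a : ℤ) (Λ : Finset ℤ) : ℝ := if a ∈ Λ then Φ.norm Λ else 0

lemma u_nonneg (a : ℤ) (Λ : Finset ℤ) : 0 ≤ Φ.u a Λ := by
  unfold u
  split_ifs
  · exact Φ.norm_nonneg Λ
  · exact le_rfl

/-- translation of finite sets -/
def tr (a : ℤ) : Finset ℤ ≃ Finset ℤ where
  toFun Λ := Λ.image (fun i => i + a)
  invFun Λ := Λ.image (fun i => i - a)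
  left_inv Λ := by
    change (Λ.image (fun i => i + a)).image (fun i => i - a) = Λ
    rw [Finset.image_image]
    have : ((fun i : ℤ => i - a) ∘ fun i => i + a) = id := by funext i; simp
    rw [this, Finset.image_id]
  right_inv Λ := by
    change (Λ.image (fun i => i - a)).image (fun i => i + a) = Λ
    rw [Finset.image_image]
    have : ((fun i : ℤ => i + a) ∘ fun i => i - a) = id := by funext i; simp
    rw [this, Finset.image_id]

lemma u_tr (a : ℤ) (Λ : Finset ℤ) : Φ.u a (tr a Λ) = Φ.u 0 Λ := by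
  unfold u tr
  simp only [Equiv.coe_fn_mk]
  rw [Φ.norm_transl]
  have : a ∈ Λ.image (fun i => i + a) ↔ (0 : ℤ) ∈ Λ := by
    rw [Finset.mem_image]
    constructor
    · rintro ⟨i, hi, h⟩
      have : i = 0 := by linarith
      rwa [this] at hi
    · intro h; exact ⟨0, h, by ring⟩
  by_cases h : (0 : ℤ) ∈ Λ
  · rw [if_pos h, if_pos (this.mpr h)]
  · rw [if_neg h, if_neg (fun h' => h (this.mp h'))]

lemma summable_u_zero (h : Φ.IsSummable) : Summable (Φ.u 0) := by
  have h1 : Φ.u 0 = Set.indicator {Λ : Finset ℤ | (0 : ℤ) ∈ Λ} Φ.norm := by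
    funext Λ
    unfold u
    by_cases h0 : (0 : ℤ) ∈ Λ
    · rw [if_pos h0, Set.indicator_of_mem (show Λ ∈ {Λ : Finset ℤ | (0 : ℤ) ∈ Λ} from h0)]
    · rw [if_neg h0, Set.indicator_of_notMem (show Λ ∉ {Λ : Finset ℤ | (0 : ℤ) ∈ Λ} from h0)]
  rw [h1]
  exact summable_subtype_iff_indicator.mp h

lemma isSummable_of_u (h : Summable (Φ.u 0)) : Φ.IsSummable := by
  have h1 : Φ.u 0 = Set.indicator {Λ : Finset ℤ | (0 : ℤ) ∈ Λ} Φ.norm := by
    funext Λ
    unfold u
    by_cases h0 : (0 : ℤ) ∈ Λ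
    · rw [if_pos h0, Set.indicator_of_mem (show Λ ∈ {Λ : Finset ℤ | (0 : ℤ) ∈ Λ} from h0)]
    · rw [if_neg h0, Set.indicator_of_notMem (show Λ ∉ {Λ : Finset ℤ | (0 : ℤ) ∈ Λ} from h0)]
  rw [h1] at h
  exact summable_subtype_iff_indicator.mpr h

lemma u_comp_tr (a : ℤ) : Φ.u a ∘ (tr a) = Φ.u 0 := funext fun Λ => Φ.u_tr a Λ

lemma summable_u (h : Φ.IsSummable) (a : ℤ) : Summable (Φ.u a) := by
  rw [← Equiv.summable_iff (tr a), Φ.u_comp_tr]
  exact Φ.summable_u_zero h

lemma tsum_u (a : ℤ) : ∑' Λ, Φ.u a Λ = ∑' Λ, Φ.u 0 Λ := by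
  rw [← Equiv.tsum_eq (tr a) (Φ.u a)]
  exact tsum_congr fun Λ => Φ.u_tr a Λ

lemma abs_diff_le {x y : Cfg} (D : Finset ℤ) (hD : ∀ i, y i ≠ x i → i ∈ D) (Λ : Finset ℤ) :
    |Φ.val Λ y - Φ.val Λ x| ≤ ∑ a ∈ D, 2 * Φ.u a Λ := by
  by_cases h : ∃ a ∈ Λ, y a ≠ x a
  · obtain ⟨a, ha, hne⟩ := h
    calc |Φ.val Λ y - Φ.val Λ x| ≤ |Φ.val Λ y| + |Φ.val Λ x| := abs_sub _ _
      _ ≤ Φ.norm Λ + Φ.norm Λ := add_le_add (Φ.abs_le_norm _ _) (Φ.abs_le_norm _ _)
      _ = 2 * Φ.u a Λ := by unfold u; rw [if_pos ha]; ring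
      _ ≤ _ := Finset.single_le_sum (f := fun a => 2 * Φ.u a Λ)
          (fun a _ => mul_nonneg zero_le_two (Φ.u_nonneg a Λ)) (hD a hne)
  · push Not at h
    rw [Φ.local_dep Λ y x h, sub_self, abs_zero]
    exact Finset.sum_nonneg fun a _ => mul_nonneg zero_le_two (Φ.u_nonneg a Λ)

lemma summable_diff (hΦ : Φ.IsSummable) {x y : Cfg} (hD : {i | y i ≠ x i}.Finite) :
    Summable fun Λ => Φ.val Λ y - Φ.val Λ x := by
  refine Summable.of_norm_bounded (g := fun Λ => ∑ a ∈ hD.toFinset, 2 * Φ.u a Λ) ?_ ?_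
  · exact summable_sum fun a _ => (Φ.summable_u hΦ a).mul_left 2
  · intro Λ
    exact Φ.abs_diff_le hD.toFinset (fun i hi => by simpa using hi) Λ

lemma isSummable_of_finiteRange (h : Φ.FiniteRange) : Φ.IsSummable := by
  apply Φ.isSummable_of_u
  obtain ⟨r, hr⟩ := h
  apply summable_of_ne_finset_zero (s := (Finset.Icc (-r) r).powerset)
  intro Λ hΛ
  unfold u
  split_ifs with h0
  · apply le_antisymm _ (Φ.norm_nonneg Λ)
    apply Φ.norm_le
    intro x
    rw [hr Λ _ x, abs_zero]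
    rw [Finset.mem_powerset, Finset.not_subset] at hΛ
    obtain ⟨i, hi, hi2⟩ := hΛ
    refine ⟨i, hi, 0, h0, ?_⟩
    rw [sub_zero]
    by_contra hcon
    push Not at hcon
    apply hi2
    rw [Finset.mem_Icc]
    exact abs_le.mp hcon
  · rfl

lemma relH_addSMul (Φ' : Interaction) (hΦ : Φ.IsSummable) (hΦ' : Φ'.IsSummable) (ε : ℝ)
    {x y : Cfg} (hD : {i | y i ≠ x i}.Finite) :
    (Φ.addSMul ε Φ').relH y x = Φ.relH y x + ε * Φ'.relH y x := by
  unfold relH
  rw [← tsum_mul_left, ← (Φ.summable_diff hΦ hD).tsum_add ((Φ'.summable_diff hΦ' hD).mul_left ε)]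
  refine tsum_congr fun Λ => ?_
  simp only [addSMul]
  ring

end Interaction

/-! ## The local function of a finite-range interaction -/

/-- The finite sets `Λ` with least element `1` contained in `[1, r+1]`. -/
noncomputable def base (r : ℕ) : Finset (Finset ℤ) := ((Finset.Icc (1 : ℤ) (r + 1)).powerset).filter fun Λ => 1 ∈ Λ

/-- The energy per site of an interaction of range `r`. -/
noncomputable def locF (Φ : Interaction) (r : ℕ) : Cfg → ℝ := fun y => ∑ Λ ∈ base r, Φ.val Λ y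

lemma localFn_locF (Φ : Interaction) (r : ℕ) : LocalFn (r + 1) (locF Φ r) := by
  intro x y h
  unfold locF
  refine Finset.sum_congr rfl fun Λ hΛ => ?_
  apply Φ.local_dep
  intro i hi
  simp only [base, Finset.mem_filter, Finset.mem_powerset] at hΛ
  have := Finset.mem_Icc.mp (hΛ.1 hi)
  exact h i this.1 (by push_cast; exact this.2)

lemma look_shift (y : Cfg) (n : ℤ) : shift n (look y n) = y := by
  funext i
  simp only [shift, look]
  congr 1; ring

lemma relH_eq_sum (Φ : Interaction) (r : ℕ)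
    (hr : ∀ Λ : Finset ℤ, (∃ i ∈ Λ, ∃ j ∈ Λ, (r : ℤ) < |i - j|) → ∀ x, Φ.val Λ x = 0)
    {x y : Cfg} {i j : ℤ} (hD : ∀ s, y s ≠ x s → i + r + 1 ≤ s ∧ s ≤ j) :
    Φ.relH y x = ∑ n ∈ Ico i j, (locF Φ r (look y n) - locF Φ r (look x n)) := by
  classical
  set T : Finset (ℤ × Finset ℤ) := (Ico i j) ×ˢ (base r) with hT
  have hinj : Set.InjOn (fun p : ℤ × Finset ℤ => p.2.image (fun s => s + p.1)) (T : Set _) := by
    rintro ⟨n, Λ⟩ h1 ⟨n', Λ'⟩ h2 heq
    simp only [hT, Finset.coe_product, Set.mem_prod, Finset.mem_coe, base, Finset.mem_filter,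
      Finset.mem_powerset] at h1 h2 heq
    have hmem : ∀ {Λ Λ' : Finset ℤ} {n n' : ℤ}, (1 : ℤ) ∈ Λ → Λ' ⊆ Icc 1 ((r : ℤ) + 1) →
        Λ.image (fun s => s + n) = Λ'.image (fun s => s + n') → n' ≤ n := by
      intro Λ Λ' n n' h1 h2 h3
      have : (1 : ℤ) + n ∈ Λ'.image (fun s => s + n') := by
        rw [← h3]; exact Finset.mem_image_of_mem _ h1
      obtain ⟨s, hs, hs2⟩ := Finset.mem_image.mp this
      have := (Finset.mem_Icc.mp (h2 hs)).1
      linarith
    have hn : n = n' := le_antisymm (hmem h2.2.2 h1.2.1 heq.symm) (hmem h1.2.2 h2.2.1 heq)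
    subst hn
    have := (Interaction.tr n).injective heq
    rw [this]
  have hsum : ∑ n ∈ Ico i j, (locF Φ r (look y n) - locF Φ r (look x n))
      = ∑ Λ ∈ T.image (fun p : ℤ × Finset ℤ => p.2.image (fun s => s + p.1)),
        (Φ.val Λ y - Φ.val Λ x) := by
    rw [Finset.sum_image hinj, hT, Finset.sum_product]
    refine Finset.sum_congr rfl fun n _ => ?_
    unfold locF
    rw [← Finset.sum_sub_distrib]
    refine Finset.sum_congr rfl fun Λ _ => ?_
    rw [← Φ.transl n Λ (look y n), ← Φ.transl n Λ (look x n), look_shift, look_shift]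
  rw [hsum]
  unfold Interaction.relH
  apply tsum_eq_sum
  intro Λ hΛ
  rcases Λ.eq_empty_or_nonempty with h0 | hne
  · subst h0
    rw [Φ.local_dep ∅ y x (by simp), sub_self]
  · by_cases hdiam : ∃ a ∈ Λ, ∃ b ∈ Λ, (r : ℤ) < |a - b|
    · rw [hr Λ hdiam, hr Λ hdiam, sub_self]
    · push Not at hdiam
      set n : ℤ := Λ.min' hne - 1 with hn
      have hmin := Λ.min'_mem hne
      have hb : ∀ s ∈ Λ, n + 1 ≤ s ∧ s ≤ n + 1 + r := by
        intro s hs
        have h1 := Λ.min'_le s hs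
        have h2 := hdiam s hs _ hmin
        have h3 := (abs_le.mp h2).2
        constructor <;> linarith
      have hnot : n ∉ Ico i j := by
        intro hnij
        apply hΛ
        rw [Finset.mem_image]
        refine ⟨(n, Λ.image (fun s => s - n)), ?_, ?_⟩
        · rw [hT, Finset.mem_product]
          refine ⟨hnij, ?_⟩
          simp only [base, Finset.mem_filter, Finset.mem_powerset]
          constructor
          · intro s hs
            obtain ⟨s', hs', rfl⟩ := Finset.mem_image.mp hs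
            have := hb s' hs'
            rw [Finset.mem_Icc]
            constructor <;> linarith
          · rw [Finset.mem_image]
            exact ⟨_, hmin, by rw [hn]; ring⟩
        · exact (Interaction.tr n).apply_symm_apply Λ
      rw [Φ.local_dep Λ y x, sub_self]
      intro s hs
      by_contra hne'
      apply hnot
      have h1 := hD s hne'
      have h2 := hb s hs
      rw [Finset.mem_Ico]
      constructor <;> linarith

end Pool.Agent.H754R3.Sturm
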