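import Pool.Agent.H754R3.Sturm.Golden

/-!
# Marks and local functions along the golden Sturmian sequence
-/

namespace Pool.Agent.H754R3.Sturm

open Finset

/-- `y` looks like `X` around `j` up to distance `fib k`. -/
def Mark (k : ℕ) (y : Cfg) (j : ℤ) : Prop := ∀ l : ℤ, |l| < Nat.fib k → y (j + l) = X l

lemma Mark.mono {k k' : ℕ} (h : k ≤ k') {y : Cfg} {j : ℤ} (hm : Mark k' y j) : Mark k y j :=
  fun l hl => hm l (lt_of_lt_of_le hl (by exact_mod_cast Nat.fib_mono h))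

lemma low_bound {k : ℕ} {m : ℤ} (hm : m ≠ 0) (hk : |m| ≤ Nat.fib k) (p : ℤ) :
    φ ^ (k + 3) ≤ |m * φ - p| := by
  refine le_trans ?_ (bad_approx m p hm)
  have h1 : |(m : ℝ)| ≤ Nat.fib k := by exact_mod_cast hk
  have h0 : 0 < |(m : ℝ)| := abs_pos.mpr (by exact_mod_cast hm)
  have h2 := fib_le k
  have h3 : φ ^ 3 ≤ 1 / 4 := by
    have h := φ_sq
    have e : φ ^ 3 = 2 * φ - 1 := by
      have : φ ^ 3 = φ * φ ^ 2 := by ring
      rw [this, h]; linear_combination -h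
    rw [e]; linarith [φ_lt]
  have hk0 : 0 < φ ^ k := pow_pos φ_pos k
  rw [le_div_iff₀ (by positivity), pow_add]
  have h4 : |(m : ℝ)| * φ ^ k ≤ 1 := (mul_le_mul_of_nonneg_right h1 hk0.le).trans h2
  have h5 : 0 ≤ φ ^ 3 := (pow_pos φ_pos 3).le
  nlinarith [mul_nonneg h5 (mul_nonneg h0.le hk0.le)]

lemma g_floor (n : ℤ) : g n = n * φ - ⌊(n : ℝ) * φ⌋ := by
  unfold g
  rw [Int.fract]

lemma g_le_of_small {k : ℕ} {m : ℤ} (hm : m ≠ 0) (hk : |m| ≤ Nat.fib k) :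
    g m ≤ 1 - φ ^ (k + 3) := by
  have h := low_bound hm hk (⌊(m : ℝ) * φ⌋ + 1)
  have h1 : |(m : ℝ) * φ - ((⌊(m : ℝ) * φ⌋ + 1 : ℤ) : ℝ)| = 1 - g m := by
    rw [abs_of_nonpos]
    · rw [g_floor]; push_cast; ring
    · have := g_lt_one m
      rw [g_floor] at this
      push_cast; linarith
  rw [h1] at h
  linarith

lemma g_le_φ_sub {k : ℕ} {m : ℤ} (hm : m ≠ 1) (hk : |m - 1| ≤ Nat.fib k) (hg : g m < φ) :
    g m ≤ φ - φ ^ (k + 3) := by
  have h := low_bound (sub_ne_zero.mpr hm) hk (⌊(m : ℝ) * φ⌋)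
  have h1 : |((m - 1 : ℤ) : ℝ) * φ - ((⌊(m : ℝ) * φ⌋ : ℤ) : ℝ)| = φ - g m := by
    rw [abs_of_nonpos]
    · rw [g_floor]; push_cast; ring
    · rw [g_floor] at hg
      push_cast; linarith
  rw [h1] at h
  linarith

lemma X_congr {a b : ℤ} (h : g a < φ ↔ g b < φ) : X a = X b := by
  rw [X_eq, X_eq]
  by_cases hb : g b < φ
  · rw [if_pos hb, if_pos (h.mpr hb)]
  · rw [if_neg hb, if_neg (fun ha => hb (h.mp ha))]

lemma mark_of_g {k : ℕ} {j : ℤ} (hj : g j < φ ^ (k + 3)) : Mark k X j := by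
  intro l hl
  have hφk : φ ^ (k + 3) ≤ φ := by
    calc φ ^ (k + 3) ≤ φ ^ 1 := pow_le_pow_of_le_one φ_pos.le φ_lt_one.le (by omega)
      _ = φ := pow_one φ
  have hl1 : |l - 1| ≤ Nat.fib k := by
    have := abs_sub l 1
    rw [abs_one] at this
    omega
  apply X_congr
  by_cases h0 : l = 0
  · subst h0
    rw [add_zero, g_zero]
    exact ⟨fun _ => φ_pos, fun _ => hj.trans_le hφk⟩
  · have h1 := g_le_of_small h0 hl.le
    have hg := g_add j l
    rw [if_pos (by linarith), sub_zero] at hg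
    rw [hg]
    constructor
    · intro h; linarith [g_nonneg j]
    · intro h
      by_cases h2 : l = 1
      · subst h2; rw [g_one] at h; exact absurd h (lt_irrefl _)
      · have := g_le_φ_sub h2 hl1 h
        linarith

lemma exists_mark (k : ℕ) (a : ℤ) : ∃ j : ℤ, a ≤ j ∧ j < a + Nat.fib (k + 5) ∧ Mark k X j := by
  obtain ⟨j, h1, h2, p, h3, h4⟩ := cover (k + 3) 0 a
  refine ⟨j, h1, h2, mark_of_g ?_⟩
  have hlt : (j : ℝ) * φ - p < 1 := by
    have : φ ^ (k + 3) ≤ 1 := pow_le_one₀ φ_pos.le φ_lt_one.le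
    linarith
  have : g j = j * φ - p := by
    unfold g
    rw [Int.fract_eq_iff]
    exact ⟨h3, hlt, p, by ring⟩
  rw [this]; linarith

lemma floor_step (n : ℤ) : ⌊(n : ℝ) * φ⌋ - ⌊((n - 1 : ℤ) : ℝ) * φ⌋ = if X n then 0 else 1 := by
  have h := g_add (n - 1) 1
  rw [show n - 1 + 1 = n by ring, g_one] at h
  have h1 := g_floor n
  have h2 := g_floor (n - 1)
  have hn := g_lt_one (n - 1)
  have hn0 := g_nonneg (n - 1)
  by_cases hc : g (n - 1) + φ < 1
  · rw [if_pos hc, sub_zero] at h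
    have hX : X n = true := by rw [X_eq, if_neg]; linarith
    rw [hX]
    simp only [if_true]
    have h3 : ((⌊(n : ℝ) * φ⌋ - ⌊((n - 1 : ℤ) : ℝ) * φ⌋ : ℤ) : ℝ) = 0 := by
      push_cast at h2 ⊢; linarith
    exact_mod_cast h3
  · rw [if_neg hc] at h
    have hX : X n = false := by rw [X_eq, if_pos]; linarith
    rw [hX]
    have h3 : ((⌊(n : ℝ) * φ⌋ - ⌊((n - 1 : ℤ) : ℝ) * φ⌋ : ℤ) : ℝ) = 1 := by
      push_cast at h2 ⊢; linarith
    have h4 : (⌊(n : ℝ) * φ⌋ - ⌊((n - 1 : ℤ) : ℝ) * φ⌋ : ℤ) = 1 := by exact_mod_cast h3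
    rw [h4]; simp

lemma floor_agree {p q : ℤ} (i : ℕ) (h : ∀ l : ℤ, 1 ≤ l → l ≤ i → X (p + l) = X (q + l)) :
    ⌊((p + i : ℤ) : ℝ) * φ⌋ - ⌊(p : ℝ) * φ⌋ = ⌊((q + i : ℤ) : ℝ) * φ⌋ - ⌊(q : ℝ) * φ⌋ := by
  induction i with
  | zero => simp
  | succ i ih =>
    have h1 := ih (fun l h1 h2 => h l h1 (by push_cast; linarith))
    have h2 := floor_step (p + (i + 1 : ℕ))
    have h3 := floor_step (q + (i + 1 : ℕ))
    have h4 := h (i + 1 : ℕ) (by push_cast; linarith) le_rfl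
    rw [h4, ← h3] at h2
    have e1 : p + ((i + 1 : ℕ) : ℤ) - 1 = p + i := by push_cast; ring
    have e2 : q + ((i + 1 : ℕ) : ℤ) - 1 = q + i := by push_cast; ring
    rw [e1, e2] at h2
    linarith

lemma g_close_aux {k : ℕ} {p q : ℤ}
    (h : ∀ l : ℤ, 1 ≤ l → l < Nat.fib (k + 2) → X (p + l) = X (q + l)) :
    g q < g p + φ ^ k := by
  by_contra hlt
  push Not at hlt
  obtain ⟨j, h1, h2, r, h3, h4⟩ := cover k (1 - g q) 0
  rw [zero_add] at h2
  obtain ⟨i, rfl⟩ := Int.eq_ofNat_of_zero_le h1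
  have h5 := floor_agree (p := p) (q := q) i (fun l hl1 hl2 => h l hl1 (by linarith))
  have e1 : ⌊((p + (i : ℤ) : ℤ) : ℝ) * φ⌋ - ⌊(p : ℝ) * φ⌋ ≤ r := by
    have : ⌊((p + (i : ℤ) : ℤ) : ℝ) * φ⌋ < ⌊(p : ℝ) * φ⌋ + r + 1 := by
      rw [Int.floor_lt]
      have := g_floor p
      push_cast at h4 h3 ⊢
      nlinarith
    linarith
  have e2 : r + 1 ≤ ⌊((q + (i : ℤ) : ℤ) : ℝ) * φ⌋ - ⌊(q : ℝ) * φ⌋ := by
    have : ⌊(q : ℝ) * φ⌋ + r + 1 ≤ ⌊((q + (i : ℤ) : ℤ) : ℝ) * φ⌋ := by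
      rw [Int.le_floor]
      have := g_floor q
      push_cast at h4 h3 ⊢
      nlinarith
    linarith
  linarith

lemma g_close {k : ℕ} {p q : ℤ}
    (h : ∀ l : ℤ, 1 ≤ l → l < Nat.fib (k + 2) → X (p + l) = X (q + l)) :
    |g p - g q| < φ ^ k := by
  rw [abs_lt]
  have h1 := g_close_aux h
  have h2 := g_close_aux (fun l h1 h2 => (h l h1 h2).symm)
  constructor <;> linarith

lemma mark_g_close {k : ℕ} {i j l : ℤ} (hi : Mark (k + 3) X i) (hj : Mark (k + 3) X j)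
    (hl0 : 0 ≤ l) (hl : l ≤ Nat.fib (k + 1)) : |g (i + l) - g (j + l)| < φ ^ k := by
  apply g_close
  intro l' h1 h2
  have h3 : (Nat.fib (k + 3) : ℤ) = Nat.fib (k + 1) + Nat.fib (k + 2) := by
    rw [show k + 3 = (k + 1) + 2 by ring, Nat.fib_add_two]; push_cast; ring
  have h4 : |l + l'| < (Nat.fib (k + 3) : ℤ) := by
    rw [abs_of_nonneg (by linarith), h3]; linarith
  rw [add_assoc, add_assoc, hi _ h4, hj _ h4]

lemma mark_sep {k : ℕ} {i j : ℤ} (hi : Mark (k + 3) X i) (hj : Mark (k + 3) X j) (hij : i ≠ j) :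
    1 ≤ 4 * φ ^ k * |((i - j : ℤ) : ℝ)| := by
  have h1 := mark_g_close hi hj le_rfl (by positivity)
  rw [add_zero, add_zero, g_floor, g_floor] at h1
  have h2 := bad_approx (i - j) (⌊(i : ℝ) * φ⌋ - ⌊(j : ℝ) * φ⌋) (sub_ne_zero.mpr hij)
  have e : (((i - j : ℤ) : ℝ)) * φ - ((⌊(i : ℝ) * φ⌋ - ⌊(j : ℝ) * φ⌋ : ℤ) : ℝ)
      = i * φ - ⌊(i : ℝ) * φ⌋ - (j * φ - ⌊(j : ℝ) * φ⌋) := by push_cast; ring
  rw [e] at h2
  have h3 := h2.trans_lt h1
  have hpos : 0 < |((i - j : ℤ) : ℝ)| := abs_pos.mpr (by exact_mod_cast sub_ne_zero.mpr hij)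
  rw [div_lt_iff₀ (by positivity)] at h3
  linarith

/-! ## Sums over integer intervals -/

lemma sum_Ico_split (f : ℤ → ℝ) {a b c : ℤ} (hab : a ≤ b) (hbc : b ≤ c) :
    ∑ n ∈ Ico a c, f n = ∑ n ∈ Ico a b, f n + ∑ n ∈ Ico b c, f n := by
  rw [← Finset.Ico_union_Ico_eq_Ico hab hbc, Finset.sum_union]
  exact Finset.Ico_disjoint_Ico_consecutive a b c

lemma sum_Ico_tele (h : ℤ → ℝ) {a b : ℤ} (hab : a ≤ b) :
    ∑ n ∈ Ico a b, (h (n + 1) - h n) = h b - h a := by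
  induction b, hab using Int.leInduction with
  | base => simp
  | succ b hb ih =>
    rw [← Finset.insert_Ico_right_eq_Ico_add_one hb, Finset.sum_insert Finset.right_notMem_Ico, ih]
    ring

/-! ## Nice functions -/

/-- Sums of `f - ρ` between two positions are controlled by the distance of the phases there. -/
def Nice (f : ℤ → ℝ) (ρ : ℝ) : Prop :=
  ∃ C : ℝ, ∃ L : ℕ, 0 ≤ C ∧ ∀ (i j : ℤ) (δ : ℝ), i ≤ j → 0 ≤ δ →
    (∀ l : ℕ, l < L → |g (j + l) - g (i + l)| ≤ δ) →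
    |∑ n ∈ Ico i j, (f n - ρ)| ≤ C * δ

lemma Nice.zero : Nice 0 0 := ⟨0, 0, le_rfl, fun i j δ _ _ _ => by simp⟩

lemma Nice.add {f f' : ℤ → ℝ} {ρ ρ' : ℝ} (h : Nice f ρ) (h' : Nice f' ρ') :
    Nice (f + f') (ρ + ρ') := by
  obtain ⟨C, L, hC, h⟩ := h
  obtain ⟨C', L', hC', h'⟩ := h'
  refine ⟨C + C', max L L', add_nonneg hC hC', fun i j δ hij hδ hl => ?_⟩
  have h1 := h i j δ hij hδ (fun l hl' => hl l (lt_max_of_lt_left hl'))
  have h2 := h' i j δ hij hδ (fun l hl' => hl l (lt_max_of_lt_right hl'))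
  have e : ∑ n ∈ Ico i j, ((f + f') n - (ρ + ρ'))
      = ∑ n ∈ Ico i j, (f n - ρ) + ∑ n ∈ Ico i j, (f' n - ρ') := by
    rw [← Finset.sum_add_distrib]
    refine Finset.sum_congr rfl fun n _ => ?_
    simp only [Pi.add_apply]; ring
  rw [e]
  calc _ ≤ _ := abs_add_le _ _
    _ ≤ C * δ + C' * δ := add_le_add h1 h2
    _ = _ := by ring

lemma Nice.smul {f : ℤ → ℝ} {ρ : ℝ} (c : ℝ) (h : Nice f ρ) : Nice (c • f) (c * ρ) := by
  obtain ⟨C, L, hC, h⟩ := h
  refine ⟨|c| * C, L, mul_nonneg (abs_nonneg c) hC, fun i j δ hij hδ hl => ?_⟩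
  have e : ∑ n ∈ Ico i j, ((c • f) n - c * ρ) = c * ∑ n ∈ Ico i j, (f n - ρ) := by
    rw [Finset.mul_sum]
    refine Finset.sum_congr rfl fun n _ => ?_
    simp only [Pi.smul_apply, smul_eq_mul]; ring
  rw [e, abs_mul, mul_assoc]
  exact mul_le_mul_of_nonneg_left (h i j δ hij hδ hl) (abs_nonneg c)

/-- The indicator of the phase interval `[0, 1 - {lφ})`. -/
noncomputable def I (l : ℕ) : ℤ → ℝ := fun n => if g n + g l < 1 then 1 else 0

lemma I_eq (l : ℕ) (n : ℤ) : I l n = 1 - g l + (g (n + l) - g n) := by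
  rw [g_add]
  unfold I
  split_ifs <;> ring

lemma nice_I (l : ℕ) : Nice (I l) (1 - g l) := by
  have key : ∀ l : ℕ, ∀ (i j : ℤ) (δ : ℝ), i ≤ j → 0 ≤ δ →
      (∀ l' : ℕ, l' < l → |g (j + l') - g (i + l')| ≤ δ) →
      |∑ n ∈ Ico i j, (g (n + l) - g n)| ≤ l * δ := by
    intro l
    induction l with
    | zero => intro i j δ _ _ _; simp
    | succ l ih =>
      intro i j δ hij hδ hl
      have e : ∑ n ∈ Ico i j, (g (n + (l + 1 : ℕ)) - g n)
          = ∑ n ∈ Ico i j, ((fun m : ℤ => g (m + l)) (n + 1) - (fun m : ℤ => g (m + l)) n)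
            + ∑ n ∈ Ico i j, (g (n + l) - g n) := by
        rw [← Finset.sum_add_distrib]
        refine Finset.sum_congr rfl fun n _ => ?_
        simp only
        rw [show n + ((l + 1 : ℕ) : ℤ) = n + 1 + l by push_cast; ring]
        ring
      rw [e, sum_Ico_tele (fun m : ℤ => g (m + l)) hij]
      have h1 := ih i j δ hij hδ (fun l' hl' => hl l' (Nat.lt_succ_of_lt hl'))
      have h2 := hl l (Nat.lt_succ_self l)
      calc _ ≤ _ := abs_add_le _ _
        _ ≤ δ + l * δ := add_le_add h2 h1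
        _ = _ := by push_cast; ring
  refine ⟨l, l, by positivity, fun i j δ hij hδ hl => ?_⟩
  have e : ∑ n ∈ Ico i j, (I l n - (1 - g l)) = ∑ n ∈ Ico i j, (g (n + l) - g n) := by
    refine Finset.sum_congr rfl fun n _ => ?_
    rw [I_eq]; ring
  rw [e]
  exact key l i j δ hij hδ hl

lemma I_zero : I 0 = 1 := by
  funext n
  simp [I, g_zero, g_lt_one]

lemma I_mul (l l' : ℕ) : ∃ m, I l * I l' = I m := by
  rcases le_total (g l) (g l') with h | h
  · refine ⟨l', ?_⟩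
    funext n
    simp only [Pi.mul_apply, I]
    by_cases h' : g n + g l' < 1
    · rw [if_pos h', if_pos (by linarith)]; ring
    · rw [if_neg h']; ring
  · refine ⟨l, ?_⟩
    funext n
    simp only [Pi.mul_apply, I]
    by_cases h' : g n + g l < 1
    · rw [if_pos h', if_pos (by linarith)]; ring
    · rw [if_neg h']; ring

lemma nice_of_mem_adjoin {f : ℤ → ℝ} (hf : f ∈ Algebra.adjoin ℝ (Set.range I)) :
    ∃ ρ, Nice f ρ := by
  have h1 : f ∈ Submodule.span ℝ (Set.range I) := by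
    have h2 : f ∈ Subalgebra.toSubmodule (Algebra.adjoin ℝ (Set.range I)) := hf
    rw [Algebra.adjoin_eq_span] at h2
    refine Submodule.span_mono ?_ h2
    let M : Submonoid (ℤ → ℝ) :=
      { carrier := Set.range I
        one_mem' := ⟨0, I_zero⟩
        mul_mem' := by
          rintro x y ⟨l, rfl⟩ ⟨l', rfl⟩
          obtain ⟨m, hm⟩ := I_mul l l'
          exact ⟨m, hm.symm⟩ }
    have hM : Submonoid.closure (Set.range I) ≤ M := Submonoid.closure_le.mpr fun x hx => hx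
    intro x hx
    exact hM hx
  clear hf
  induction h1 using Submodule.span_induction with
  | mem x hx => obtain ⟨l, rfl⟩ := hx; exact ⟨_, nice_I l⟩
  | zero => exact ⟨0, Nice.zero⟩
  | add x y _ _ hx hy =>
    obtain ⟨ρ, hρ⟩ := hx
    obtain ⟨ρ', hρ'⟩ := hy
    exact ⟨_, hρ.add hρ'⟩
  | smul c x _ hx =>
    obtain ⟨ρ, hρ⟩ := hx
    exact ⟨_, hρ.smul c⟩

/-- The indicator that the letter at `n + l + 1` is `b`. -/
noncomputable def χ (l : ℕ) (b : Bool) : ℤ → ℝ := fun n => if X (n + (l + 1 : ℕ)) = b then 1 else 0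

lemma χ_mem (l : ℕ) (b : Bool) : χ l b ∈ Algebra.adjoin ℝ (Set.range I) := by
  have hI : ∀ m, I m ∈ Algebra.adjoin ℝ (Set.range I) := fun m =>
    Algebra.subset_adjoin ⟨m, rfl⟩
  have hfalse : χ l false = algebraMap ℝ (ℤ → ℝ) (φ - g (l + 1 : ℕ) + g l) + I l - I (l + 1) := by
    funext n
    simp only [Pi.sub_apply, Pi.add_apply, I_eq, Pi.algebraMap_apply, Algebra.algebraMap_self,
      RingHom.id_apply]
    have h1 := floor_step (n + (l + 1 : ℕ))
    rw [show n + ((l + 1 : ℕ) : ℤ) - 1 = n + l by push_cast; ring] at h1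
    have h2 := g_floor (n + (l + 1 : ℕ))
    have h3 := g_floor (n + l)
    have h4 : χ l false n = ((if X (n + (l + 1 : ℕ)) then 0 else 1 : ℤ) : ℝ) := by
      unfold χ
      cases X (n + (l + 1 : ℕ)) <;> simp
    rw [h4, ← h1]
    push_cast at h2 h3 ⊢
    rw [h2, h3]
    ring
  have htrue : χ l true = 1 - χ l false := by
    funext n
    simp only [χ, Pi.sub_apply, Pi.one_apply]
    cases X (n + (l + 1 : ℕ)) <;> simp
  have hf : χ l false ∈ Algebra.adjoin ℝ (Set.range I) := by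
    rw [hfalse]
    exact Subalgebra.sub_mem _ (Subalgebra.add_mem _ (Subalgebra.algebraMap_mem _ _) (hI _)) (hI _)
  cases b
  · exact hf
  · rw [htrue]
    exact Subalgebra.sub_mem _ (Subalgebra.one_mem _) hf

/-- `F` depends only on the coordinates `1, …, m`. -/
def LocalFn (m : ℕ) (F : Cfg → ℝ) : Prop :=
  ∀ x y : Cfg, (∀ i : ℤ, 1 ≤ i → i ≤ m → x i = y i) → F x = F y

/-- The configuration seen from position `n`. -/
def look (y : Cfg) (n : ℤ) : Cfg := fun s => y (n + s)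

lemma nice_local {m : ℕ} {F : Cfg → ℝ} (hF : LocalFn m F) :
    ∃ ρ, Nice (fun n => F (look X n)) ρ := by
  apply nice_of_mem_adjoin
  let ext : (Fin m → Bool) → Cfg := fun v i =>
    if h : 1 ≤ i ∧ i ≤ m then v ⟨(i - 1).toNat, by omega⟩ else false
  have hrep : (fun n => F (look X n))
      = ∑ v : Fin m → Bool, (F (ext v)) • ∏ l : Fin m, χ l (v l) := by
    funext n
    rw [Finset.sum_apply]
    let w : Fin m → Bool := fun l => X (n + (l + 1 : ℕ))
    rw [Finset.sum_eq_single w]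
    · have h1 : ∏ l : Fin m, χ l (w l) n = 1 := by
        apply Finset.prod_eq_one
        intro l _
        simp [χ, w]
      rw [Pi.smul_apply, Finset.prod_apply, h1, smul_eq_mul, mul_one]
      apply hF
      intro i hi1 hi2
      simp only [look, ext, w]
      rw [dif_pos ⟨hi1, hi2⟩]
      congr 1
      push_cast
      rw [Int.toNat_of_nonneg (by linarith)]
      ring
    · intro v _ hv
      rw [Pi.smul_apply, Finset.prod_apply]
      have : ∃ l : Fin m, w l ≠ v l := by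
        by_contra hcon
        push Not at hcon
        exact hv (funext fun l => (hcon l).symm)
      obtain ⟨l, hl⟩ := this
      rw [Finset.prod_eq_zero (Finset.mem_univ l), smul_zero]
      simp only [χ]
      rw [if_neg]
      exact hl
    · intro h; exact absurd (Finset.mem_univ w) h
  rw [hrep]
  refine Subalgebra.sum_mem _ fun v _ => Subalgebra.smul_mem _ ?_ _
  exact Subalgebra.prod_mem _ fun l _ => χ_mem l (v l)

end Pool.Agent.H754R3.Sturm
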