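import Pool.Agent.H754R3.Sturm.GoldenInter

/-!
# The Sturmian measure
-/

namespace Pool.Agent.H754R3.Sturm

open Finset MeasureTheory

/-! ## The orbit closure -/

lemma mem_orbitClosure_iff (x : Cfg) : x ∈ orbitClosure φ ↔ AllAllowed x := by
  constructor
  · intro hx a b
    have hopen : IsOpen (⋂ i ∈ Finset.Icc a b, {y : Cfg | y i = x i}) := by
      apply isOpen_biInter_finset
      intro i _
      have h1 : IsOpen ({x i} : Set Bool) := isOpen_discrete _
      exact h1.preimage (continuous_apply (A := fun _ : ℤ => Bool) i)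
    obtain ⟨y, hy1, c, rfl⟩ := mem_closure_iff.mp hx _ hopen (by simp)
    refine ⟨-c, fun i h1 h2 => ?_⟩
    simp only [Set.mem_iInter] at hy1
    have h3 : shift c (sturmian φ) i = x i := hy1 i (Finset.mem_Icc.mpr ⟨h1, h2⟩)
    rw [← h3]
    rfl
  · intro hx
    rw [orbitClosure, mem_closure_iff]
    intro o ho hxo
    obtain ⟨S, u, hu, hsub⟩ := isOpen_pi_iff.mp ho x hxo
    obtain ⟨M, hM⟩ : ∃ M : ℕ, ∀ i ∈ S, |i| ≤ (M : ℤ) := by
      refine ⟨∑ s ∈ S, s.natAbs, fun s hs => ?_⟩
      have := Finset.single_le_sum (f := fun s : ℤ => s.natAbs) (fun _ _ => Nat.zero_le _) hs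
      rw [Int.abs_eq_natAbs]
      exact_mod_cast this
    obtain ⟨c, hc⟩ := hx (-M) M
    refine ⟨shift (-c) (sturmian φ), hsub ?_, ⟨-c, rfl⟩⟩
    intro i hi
    have h1 := abs_le.mp (hM i hi)
    have h2 : shift (-c) (sturmian φ) i = x i := by
      rw [hc i h1.1 h1.2]
      simp only [shift, sub_neg_eq_add]
      rfl
    rw [h2]
    exact (hu i hi).2

/-! ## Averages of local functions over allowed configurations -/

lemma allowed_sum {m : ℕ} {F : Cfg → ℝ} (hF : LocalFn m F) :
    ∃ ρ B : ℝ, ∀ x : Cfg, AllAllowed x → ∀ N : ℕ,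
      |∑ n ∈ Ico (0 : ℤ) N, (F (look x n) - ρ)| ≤ B := by
  obtain ⟨ρ, C, L, hC, hnice⟩ := nice_local hF
  refine ⟨ρ, C * 1, fun x hx N => ?_⟩
  obtain ⟨c, hc⟩ := hx 0 (N + m)
  have e : ∑ n ∈ Ico (0 : ℤ) N, (F (look x n) - ρ)
      = ∑ n ∈ Ico ((0 : ℤ) + c) (N + c), (F (look X n) - ρ) := by
    rw [← sum_shift]
    refine Finset.sum_congr rfl fun n hn => ?_
    rw [Finset.mem_Ico] at hn
    congr 1
    apply hF
    intro i hi1 hi2
    simp only [look]
    rw [hc (n + i) (by linarith) (by linarith)]
    congr 1; ring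
  rw [e]
  refine hnice _ _ 1 (by linarith [Int.natCast_nonneg N]) zero_le_one fun l _ => ?_
  rw [abs_le]
  constructor <;> linarith [g_nonneg ((N : ℤ) + c + l), g_lt_one ((N : ℤ) + c + l),
    g_nonneg ((0 : ℤ) + c + l), g_lt_one ((0 : ℤ) + c + l)]

lemma look_eq_shift (x : Cfg) (n : ℤ) : look x n = shift (-n) x := by
  funext i
  simp only [look, shift]
  congr 1; ring

lemma measurable_shift (a : ℤ) : Measurable (shift a) :=
  measurable_pi_lambda _ fun i => measurable_pi_apply (i - a)

lemma integral_look {μ : Measure Cfg} (hinv : ∀ a : ℤ, μ.map (shift a) = μ) {F : Cfg → ℝ}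
    (hFm : Measurable F) (n : ℤ) : ∫ x, F (look x n) ∂μ = ∫ x, F x ∂μ := by
  simp only [look_eq_shift]
  conv_rhs => rw [← hinv (-n)]
  rw [integral_map (measurable_shift (-n)).aemeasurable hFm.aestronglyMeasurable]

lemma integral_eq {m : ℕ} {F : Cfg → ℝ} (hF : LocalFn m F) (hFm : Measurable F) :
    ∃ ρ : ℝ, ∀ μ : Measure Cfg, IsProbabilityMeasure μ → (∀ a : ℤ, μ.map (shift a) = μ) →
      (∀ᵐ x ∂μ, AllAllowed x) → ∫ x, F x ∂μ = ρ := by
  obtain ⟨ρ, B, hB⟩ := allowed_sum hF
  obtain ⟨A, _, hA⟩ := local_bounded hF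
  refine ⟨ρ, fun μ hμ hinv hsupp => ?_⟩
  have hint : ∀ n : ℤ, Integrable (fun x => F (look x n)) μ := by
    intro n
    refine Integrable.of_bound ((hFm.comp ?_).aestronglyMeasurable) A
      (Filter.Eventually.of_forall fun x => hA _)
    have : (fun x => look x n) = shift (-n) := funext fun x => look_eq_shift x n
    rw [this]
    exact measurable_shift (-n)
  have hN : ∀ N : ℕ, |(N : ℝ) * (∫ x, F x ∂μ - ρ)| ≤ B := by
    intro N
    have h1 : ∫ x, (∑ n ∈ Ico (0 : ℤ) N, (F (look x n) - ρ)) ∂μ
        = (N : ℝ) * (∫ x, F x ∂μ - ρ) := by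
      rw [integral_finsetSum]
      · have : ∀ n ∈ Ico (0 : ℤ) N, ∫ x, (F (look x n) - ρ) ∂μ = ∫ x, F x ∂μ - ρ := by
          intro n _
          rw [integral_sub (hint n) (integrable_const ρ), integral_look hinv hFm]
          simp
        rw [Finset.sum_congr rfl this, Finset.sum_const, Int.card_Ico, nsmul_eq_mul]
        simp
      · intro n _
        exact (hint n).sub (integrable_const ρ)
    rw [← h1]
    have h2 : ‖∫ x, (∑ n ∈ Ico (0 : ℤ) N, (F (look x n) - ρ)) ∂μ‖ ≤ B * (μ.real Set.univ) := by
      apply norm_integral_le_of_norm_le_const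
      filter_upwards [hsupp] with x hx
      exact hB x hx N
    simpa using h2
  by_contra hne
  have hpos : 0 < |∫ x, F x ∂μ - ρ| := abs_pos.mpr (sub_ne_zero.mpr hne)
  obtain ⟨N, hN2⟩ := exists_nat_gt (B / |∫ x, F x ∂μ - ρ|)
  rw [div_lt_iff₀ hpos] at hN2
  have := hN N
  rw [abs_mul, Nat.abs_cast] at this
  linarith

/-! ## Unique ergodicity -/

lemma unique_measure {μ μ' : Measure Cfg} (hμ : IsProbabilityMeasure μ)
    (hμ' : IsProbabilityMeasure μ') (hinv : ∀ a : ℤ, μ.map (shift a) = μ)
    (hinv' : ∀ a : ℤ, μ'.map (shift a) = μ') (hs : ∀ᵐ x ∂μ, AllAllowed x)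
    (hs' : ∀ᵐ x ∂μ', AllAllowed x) : μ = μ' := by
  refine ext_of_generate_finite (measurableCylinders fun _ : ℤ => Bool)
    generateFrom_measurableCylinders.symm isPiSystem_measurableCylinders ?_ (by simp)
  intro C hC
  have hCm : MeasurableSet C := MeasurableSet.of_mem_measurableCylinders hC
  obtain ⟨s, S, hS, rfl⟩ := (mem_measurableCylinders C).mp hC
  obtain ⟨M, hM⟩ : ∃ M : ℕ, ∀ i ∈ s, |i| ≤ (M : ℤ) := by
    refine ⟨∑ i ∈ s, i.natAbs, fun i hi => ?_⟩
    have := Finset.single_le_sum (f := fun i : ℤ => i.natAbs) (fun _ _ => Nat.zero_le _) hi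
    rw [Int.abs_eq_natAbs]
    exact_mod_cast this
  set G : Cfg → ℝ := (cylinder s S).indicator (fun _ => (1 : ℝ)) with hG
  have hGm : Measurable G := measurable_const.indicator hCm
  set F : Cfg → ℝ := fun x => G (look x (-(M + 1))) with hFdef
  have hlookm : Measurable (fun x => look x (-(M + 1 : ℤ))) := by
    have : (fun x => look x (-(M + 1 : ℤ))) = shift (-(-(M + 1 : ℤ))) :=
      funext fun x => look_eq_shift x _
    rw [this]; exact measurable_shift _
  set F : Cfg → ℝ := fun x => G (look x (M + 1)) with hFdef2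
  have hlookm2 : Measurable (fun x => look x (M + 1 : ℤ)) := by
    have : (fun x => look x (M + 1 : ℤ)) = shift (-(M + 1 : ℤ)) :=
      funext fun x => look_eq_shift x _
    rw [this]; exact measurable_shift _
  have hFm : Measurable F := hGm.comp hlookm2
  have hF : LocalFn (2 * M + 1) F := by
    intro x y h
    have hiff : look x (M + 1) ∈ cylinder s S ↔ look y (M + 1) ∈ cylinder s S := by
      rw [mem_cylinder, mem_cylinder]
      have : s.restrict (look x (M + 1)) = s.restrict (look y (M + 1)) := by
        funext i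
        simp only [Finset.restrict, look]
        have h1 := abs_le.mp (hM i.1 i.2)
        apply h
        · linarith [h1.1]
        · push_cast; linarith [h1.2]
      rw [this]
    simp only [hFdef2, hG]
    by_cases hx : look x (M + 1) ∈ cylinder s S
    · rw [Set.indicator_of_mem hx, Set.indicator_of_mem (hiff.mp hx)]
    · rw [Set.indicator_of_notMem hx, Set.indicator_of_notMem (fun h' => hx (hiff.mpr h'))]
  obtain ⟨ρ, hρ⟩ := integral_eq hF hFm
  have h1 := hρ μ hμ hinv hs
  have h2 := hρ μ' hμ' hinv' hs'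
  rw [hFdef2, integral_look hinv hGm, hG, integral_indicator hCm] at h1
  rw [hFdef2, integral_look hinv' hGm, hG, integral_indicator hCm] at h2
  simp only [integral_const, MeasurableSet.univ, measureReal_restrict_apply, Set.univ_inter,
    smul_eq_mul, mul_one] at h1 h2
  rw [← h2, Measure.real, Measure.real,
    ENNReal.toReal_eq_toReal_iff' (measure_ne_top _ _) (measure_ne_top _ _)] at h1
  exact h1

/-! ## Existence: the coding of the rotation -/

/-- the representative in `[0,1)` -/
noncomputable def fr (t : UnitAddCircle) : ℝ := (AddCircle.equivIco 1 0 t : ℝ)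

lemma fr_coe (s : ℝ) : fr (s : UnitAddCircle) = Int.fract s := by
  unfold fr
  have := AddCircle.coe_equivIco_mk_apply (p := (1 : ℝ)) s
  rw [div_one, mul_one] at this
  exact this

lemma measurable_fr : Measurable fr :=
  measurable_subtype_coe.comp (AddCircle.measurableEquivIco 1 0).measurable

/-- the coding of the orbit of `t` -/
noncomputable def cod (t : UnitAddCircle) : Cfg := fun n =>
  if fr (t + ((n * φ : ℝ) : UnitAddCircle)) < φ then false else true

lemma measurable_cod : Measurable cod := by
  refine measurable_pi_lambda _ fun n => ?_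
  refine Measurable.ite ?_ measurable_const measurable_const
  exact measurableSet_lt (measurable_fr.comp (measurable_id.add_const _)) measurable_const

lemma shift_cod (a : ℤ) (t : UnitAddCircle) :
    shift a (cod t) = cod (t + ((-a * φ : ℝ) : UnitAddCircle)) := by
  funext n
  simp only [shift, cod]
  have : t + (((n - a : ℤ) * φ : ℝ) : UnitAddCircle)
      = t + ((-a * φ : ℝ) : UnitAddCircle) + ((n * φ : ℝ) : UnitAddCircle) := by
    rw [add_assoc, ← AddCircle.coe_add]
    congr 2
    push_cast; ring
  rw [this]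

/-- The Sturmian measure of the golden slope. -/
noncomputable def rho : Measure Cfg := (volume : Measure UnitAddCircle).map cod

lemma isProbability_volume : IsProbabilityMeasure (volume : Measure UnitAddCircle) :=
  ⟨by rw [AddCircle.measure_univ]; simp⟩

lemma isProbability_rho : IsProbabilityMeasure rho := by
  have := isProbability_volume
  exact Measure.isProbabilityMeasure_map measurable_cod.aemeasurable

lemma rho_inv (a : ℤ) : rho.map (shift a) = rho := by
  unfold rho
  rw [Measure.map_map (measurable_shift a) measurable_cod]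
  have : shift a ∘ cod = cod ∘ (fun t => t + ((-a * φ : ℝ) : UnitAddCircle)) :=
    funext fun t => shift_cod a t
  have hm : Measurable (fun t : UnitAddCircle => t + ((-a * φ : ℝ) : UnitAddCircle)) :=
    measurable_id.add_const _
  rw [this, ← Measure.map_map measurable_cod hm, map_add_right_eq_self]

lemma right_continuity (u : ℝ) : ∃ δ : ℝ, 0 < δ ∧ ∀ d, 0 ≤ d → d < δ →
    (Int.fract (u + d) < φ ↔ Int.fract u < φ) := by
  have h0 := Int.fract_nonneg u
  have h1 := Int.fract_lt_one u
  have key : ∀ d, 0 ≤ d → d < 1 - Int.fract u → Int.fract (u + d) = Int.fract u + d := by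
    intro d hd1 hd2
    rw [Int.fract_eq_iff]
    refine ⟨by linarith, by linarith, ⌊u⌋, ?_⟩
    linarith [Int.floor_add_fract u]
  by_cases h : Int.fract u < φ
  · refine ⟨min (1 - Int.fract u) (φ - Int.fract u), lt_min (by linarith) (by linarith), ?_⟩
    intro d hd1 hd2
    rw [key d hd1 (lt_of_lt_of_le hd2 (min_le_left _ _))]
    have := lt_of_lt_of_le hd2 (min_le_right _ _)
    exact ⟨fun _ => h, fun _ => by linarith⟩
  · refine ⟨1 - Int.fract u, by linarith, ?_⟩
    intro d hd1 hd2
    rw [key d hd1 hd2]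
    constructor
    · intro h'; linarith
    · intro h'; exact absurd h' h

lemma right_continuity_finset (S : Finset ℤ) (s : ℝ) : ∃ δ : ℝ, 0 < δ ∧ ∀ n ∈ S, ∀ d, 0 ≤ d →
    d < δ → (Int.fract (s + n * φ + d) < φ ↔ Int.fract (s + n * φ) < φ) := by
  classical
  induction S using Finset.induction_on with
  | empty => exact ⟨1, one_pos, by simp⟩
  | insert a S _ ih =>
    obtain ⟨δ, hδ, h⟩ := ih
    obtain ⟨δ', hδ', h'⟩ := right_continuity (s + a * φ)
    refine ⟨min δ δ', lt_min hδ hδ', ?_⟩
    intro n hn d hd1 hd2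
    rcases Finset.mem_insert.mp hn with rfl | hn
    · exact h' d hd1 (lt_of_lt_of_le hd2 (min_le_right _ _))
    · exact h n hn d hd1 (lt_of_lt_of_le hd2 (min_le_left _ _))

lemma allAllowed_cod (t : UnitAddCircle) : AllAllowed (cod t) := by
  intro a b
  obtain ⟨s, rfl⟩ : ∃ s : ℝ, (s : UnitAddCircle) = t := QuotientAddGroup.mk_surjective t
  obtain ⟨δ, hδ, h⟩ := right_continuity_finset (Finset.Icc a b) s
  obtain ⟨k, hk⟩ := exists_pow_lt_of_lt_one hδ φ_lt_one
  obtain ⟨j, -, -, p, h1, h2⟩ := cover k s 0
  refine ⟨j, fun i hi1 hi2 => ?_⟩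
  have h3 := h i (Finset.mem_Icc.mpr ⟨hi1, hi2⟩) (j * φ - p - s) (by linarith) (by linarith)
  have e1 : fr ((s : UnitAddCircle) + ((i * φ : ℝ) : UnitAddCircle)) = Int.fract (s + i * φ) := by
    rw [← AddCircle.coe_add, fr_coe]
  have e2 : g (i + j) = Int.fract (s + i * φ + (j * φ - p - s)) := by
    unfold g
    rw [show s + i * φ + (j * φ - p - s) = (((i + j : ℤ) : ℝ) * φ) - (p : ℝ) by push_cast; ring,
      Int.fract_sub_intCast]
  simp only [cod]
  rw [e1, X_eq, e2]
  by_cases hc : Int.fract (s + i * φ) < φ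
  · rw [if_pos hc, if_pos (h3.mpr hc)]
  · rw [if_neg hc, if_neg (fun h' => hc (h3.mp h'))]

lemma measurableSet_allowed (a b : ℤ) : MeasurableSet {x : Cfg | Allowed x a b} := by
  have : {x : Cfg | Allowed x a b} = ⋃ c : ℤ, ⋂ i ∈ Finset.Icc a b, {x : Cfg | x i = X (i + c)} := by
    ext x
    simp only [Set.mem_ofPred_eq, Set.mem_iUnion, Set.mem_iInter, Finset.mem_Icc, Allowed]
    constructor
    · rintro ⟨c, hc⟩; exact ⟨c, fun i hi => hc i hi.1 hi.2⟩
    · rintro ⟨c, hc⟩; exact ⟨c, fun i h1 h2 => hc i ⟨h1, h2⟩⟩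
  rw [this]
  refine MeasurableSet.iUnion fun c => Finset.measurableSet_biInter _ fun i _ => ?_
  exact measurable_pi_apply i (MeasurableSet.singleton _)

lemma measurableSet_allAllowed : MeasurableSet {x : Cfg | AllAllowed x} := by
  have : {x : Cfg | AllAllowed x} = ⋂ a : ℤ, ⋂ b : ℤ, {x : Cfg | Allowed x a b} := by
    ext x
    simp only [Set.mem_ofPred_eq, Set.mem_iInter, AllAllowed]
  rw [this]
  exact MeasurableSet.iInter fun a => MeasurableSet.iInter fun b => measurableSet_allowed a b

lemma rho_supp : ∀ᵐ x ∂rho, AllAllowed x := by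
  unfold rho
  rw [ae_map_iff measurable_cod.aemeasurable measurableSet_allAllowed]
  exact Filter.Eventually.of_forall allAllowed_cod

theorem isSturmianMeasure_rho : IsSturmianMeasure φ rho := by
  refine ⟨⟨isProbability_rho, rho_inv, ?_⟩, ?_⟩
  · filter_upwards [rho_supp] with x hx
    exact (mem_orbitClosure_iff x).mpr hx
  · intro ρ' h1 h2 h3
    refine unique_measure h1 isProbability_rho h2 rho_inv ?_ rho_supp
    filter_upwards [h3] with x hx
    exact (mem_orbitClosure_iff x).mp hx

/-! ## Ground states of the golden interaction -/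

/-- Ground-state configurations have uniformly bounded energy in every box. -/
lemma ground_bound {x : Cfg} (hx : golden.IsGroundConfig x) (M : ℕ) :
    ∑ Λ ∈ (Finset.Icc (-(M : ℤ)) M).powerset, golden.val Λ x ≤ 2 * ∑' Λ, golden.u 0 Λ := by
  classical
  set y : Cfg := fun i => if |i| ≤ (M : ℤ) then X i else x i with hy
  have hD : {i | y i ≠ x i}.Finite := by
    apply (Set.finite_Icc (-(M : ℤ)) M).subset
    intro i hi
    by_contra hcon
    apply hi
    simp only [hy]
    rw [if_neg]
    intro h
    exact hcon (Set.mem_Icc.mpr (abs_le.mp h))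
  have h0 := hx y hD
  set box : Finset ℤ := Finset.Icc (-(M : ℤ)) M with hbox
  -- the comparison function
  set h : Finset ℤ → ℝ := fun Λ => -(if Λ ∈ box.powerset then golden.val Λ x else 0)
    + golden.u (-(M : ℤ) - 1) Λ + golden.u ((M : ℤ) + 1) Λ with hh
  have hs1 : Summable fun Λ => (if Λ ∈ box.powerset then golden.val Λ x else 0) := by
    apply summable_of_ne_finset_zero (s := box.powerset)
    intro Λ hΛ
    rw [if_neg hΛ]
  have hs2 := golden.summable_u golden_summable (-(M : ℤ) - 1)
  have hs3 := golden.summable_u golden_summable ((M : ℤ) + 1)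
  have hle : ∀ Λ, golden.val Λ y - golden.val Λ x ≤ h Λ := by
    intro Λ
    have hu1 := golden.u_nonneg (-(M : ℤ) - 1) Λ
    have hu2 := golden.u_nonneg ((M : ℤ) + 1) Λ
    have hx0 := golden_nonneg Λ x
    have hyn : golden.val Λ y ≤ golden.norm Λ := (le_abs_self _).trans (golden.abs_le_norm Λ y)
    simp only [hh]
    by_cases hin : Λ ∈ box.powerset
    · rw [if_pos hin]
      have hy0 : golden.val Λ y = 0 := by
        simp only [golden]
        rw [if_neg]
        rintro ⟨_, h2⟩
        apply h2
        refine ⟨0, fun i hi => ?_⟩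
        have := Finset.mem_Icc.mp (Finset.mem_powerset.mp hin hi)
        simp only [hy, add_zero]
        rw [if_pos (abs_le.mpr this)]
      rw [hy0]; linarith
    · rw [if_neg hin, neg_zero, zero_add]
      by_cases hw : IsWindow Λ
      · by_cases h1 : -(M : ℤ) - 1 ∈ Λ
        · have : golden.u (-(M : ℤ) - 1) Λ = golden.norm Λ := by
            unfold Interaction.u; rw [if_pos h1]
          rw [this]; linarith
        · by_cases h2 : (M : ℤ) + 1 ∈ Λ
          · have : golden.u ((M : ℤ) + 1) Λ = golden.norm Λ := by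
              unfold Interaction.u; rw [if_pos h2]
            rw [this]; linarith
          · have hagree : ∀ i ∈ Λ, y i = x i := by
              obtain ⟨a, k, rfl⟩ := hw
              rw [Finset.mem_Icc] at h1 h2
              intro i hi
              rw [Finset.mem_Icc] at hi
              simp only [hy]
              rw [if_neg]
              intro hiM
              have hiM' := abs_le.mp hiM
              apply hin
              rw [Finset.mem_powerset]
              intro j hj
              rw [Finset.mem_Icc] at hj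
              rw [hbox, Finset.mem_Icc]
              constructor
              · by_contra hcon
                push Not at hcon
                exact h1 ⟨by linarith, by linarith⟩
              · by_contra hcon
                push Not at hcon
                exact h2 ⟨by linarith, by linarith⟩
            rw [golden.local_dep Λ y x hagree]; linarith
      · have e1 : golden.val Λ y = 0 := by
          simp only [golden]; rw [if_neg (fun h => hw h.1)]
        have e2 : golden.val Λ x = 0 := by
          simp only [golden]; rw [if_neg (fun h => hw h.1)]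
        rw [e1, e2]; linarith
  have hsum : golden.relH y x ≤ ∑' Λ, h Λ := by
    unfold Interaction.relH
    exact (golden.summable_diff golden_summable hD).tsum_le_tsum hle ((hs1.neg.add hs2).add hs3)
  have htot : ∑' Λ, h Λ = -(∑ Λ ∈ box.powerset, golden.val Λ x)
      + ∑' Λ, golden.u 0 Λ + ∑' Λ, golden.u 0 Λ := by
    simp only [hh]
    have e1 : ∑' Λ, (if Λ ∈ box.powerset then golden.val Λ x else 0)
        = ∑ Λ ∈ box.powerset, golden.val Λ x := by
      rw [tsum_eq_sum (s := box.powerset) (fun Λ hΛ => if_neg hΛ)]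
      exact Finset.sum_congr rfl fun Λ hΛ => if_pos hΛ
    rw [(hs1.neg.add hs2).tsum_add hs3, hs1.neg.tsum_add hs2, tsum_neg,
      golden.tsum_u (-(M : ℤ) - 1), golden.tsum_u ((M : ℤ) + 1), e1]
  linarith

lemma measurable_golden (a : ℤ) (k : ℕ) :
    Measurable (golden.val (Finset.Icc (a - rad k) (a + rad k))) := by
  classical
  have hset : MeasurableSet {y : Cfg | ¬ Allowed y (a - rad k) (a + rad k)} :=
    (measurableSet_allowed _ _).compl
  have : golden.val (Finset.Icc (a - rad k) (a + rad k))
      = Set.indicator {y : Cfg | ¬ Allowed y (a - rad k) (a + rad k)}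
        (fun _ => 1 / (2 * (Nat.fib (k + 6) : ℝ) + 1) ^ 2) := by
    funext y
    by_cases h : Allowed y (a - rad k) (a + rad k)
    · rw [Set.indicator_of_notMem (by simpa using h)]
      simp only [golden]
      rw [if_neg]
      rintro ⟨_, h2⟩
      obtain ⟨c, hc⟩ := h
      exact h2 ⟨c, fun i hi => hc i (Finset.mem_Icc.mp hi).1 (Finset.mem_Icc.mp hi).2⟩
    · rw [Set.indicator_of_mem (by simpa using h), golden_val_bad h]
  rw [this]
  exact measurable_const.indicator hset

lemma golden_look (y : Cfg) (a : ℤ) (k : ℕ) :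
    golden.val (Finset.Icc (a - rad k) (a + rad k)) y
      = golden.val (Finset.Icc (0 - rad k) (0 + rad k)) (look y a) := by
  rw [← golden.transl a (Finset.Icc (0 - rad k) (0 + rad k)) (look y a), look_shift, image_Icc]
  congr 2 <;> ring

theorem ground_supp {μ : Measure Cfg} (hμ : golden.IsGroundState μ) : ∀ᵐ x ∂μ, AllAllowed x := by
  obtain ⟨hprob, hinv, hg⟩ := hμ
  set f : ℕ → Cfg → ℝ := fun k => golden.val (Finset.Icc (0 - rad k) (0 + rad k)) with hf
  have hfm : ∀ k, Measurable (f k) := fun k => measurable_golden 0 k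
  have hf0 : ∀ k x, 0 ≤ f k x := fun k x => golden_nonneg _ _
  have hfb : ∀ k x, |f k x| ≤ golden.norm (Finset.Icc (0 - rad k) (0 + rad k)) := fun k x =>
    golden.abs_le_norm _ _
  have hint : ∀ k (n : ℤ), Integrable (fun x => f k (look x n)) μ := by
    intro k n
    refine Integrable.of_bound (((hfm k).comp ?_).aestronglyMeasurable) _
      (Filter.Eventually.of_forall fun x => hfb k _)
    have : (fun x => look x n) = shift (-n) := funext fun x => look_eq_shift x n
    rw [this]
    exact measurable_shift (-n)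
  have hzero : ∀ k, ∫ x, f k x ∂μ = 0 := by
    intro k
    have hnn : 0 ≤ ∫ x, f k x ∂μ := integral_nonneg (hf0 k)
    have hbound : ∀ N : ℕ, (N : ℝ) * ∫ x, f k x ∂μ ≤ 2 * ∑' Λ, golden.u 0 Λ := by
      intro N
      have h1 : ∫ x, (∑ n ∈ Ico (0 : ℤ) N, f k (look x n)) ∂μ = (N : ℝ) * ∫ x, f k x ∂μ := by
        rw [integral_finsetSum _ fun n _ => hint k n]
        have : ∀ n ∈ Ico (0 : ℤ) N, ∫ x, f k (look x n) ∂μ = ∫ x, f k x ∂μ :=
          fun n _ => integral_look hinv (hfm k) n
        rw [Finset.sum_congr rfl this, Finset.sum_const, Int.card_Ico, nsmul_eq_mul]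
        simp
      rw [← h1]
      have h2 : ∫ x, (∑ n ∈ Ico (0 : ℤ) N, f k (look x n)) ∂μ
          ≤ ∫ _x, (2 * ∑' Λ, golden.u 0 Λ) ∂μ := by
        apply integral_mono_ae (integrable_finsetSum _ fun n _ => hint k n) (integrable_const _)
        filter_upwards [hg] with x hx
        set M : ℕ := N + Nat.fib (k + 6) with hM
        refine le_trans ?_ (ground_bound hx M)
        have hinj : Set.InjOn (fun n : ℤ => Finset.Icc (n - rad k) (n + rad k))
            (Ico (0 : ℤ) N : Set ℤ) := fun a _ b _ h => (window_inj h).1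
        have h3 : ∑ n ∈ Ico (0 : ℤ) N, f k (look x n)
            = ∑ Λ ∈ (Ico (0 : ℤ) N).image (fun n : ℤ => Finset.Icc (n - rad k) (n + rad k)),
              golden.val Λ x := by
          rw [Finset.sum_image hinj]
          exact Finset.sum_congr rfl fun n _ => (golden_look x n k).symm
        rw [h3]
        apply Finset.sum_le_sum_of_subset_of_nonneg
        · intro Λ hΛ
          obtain ⟨n, hn, rfl⟩ := Finset.mem_image.mp hΛ
          rw [Finset.mem_Ico] at hn
          rw [Finset.mem_powerset]
          intro i hi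
          rw [Finset.mem_Icc] at hi ⊢
          have hr : rad k = (Nat.fib (k + 6) : ℤ) := rfl
          rw [hr] at hi
          rw [hM]
          push_cast
          constructor <;> linarith [hi.1, hi.2, hn.1, hn.2]
        · intro Λ _ _
          exact golden_nonneg _ _
      simpa using h2
    by_contra hne
    have hpos : 0 < ∫ x, f k x ∂μ := lt_of_le_of_ne hnn (Ne.symm hne)
    obtain ⟨N, hN⟩ := exists_nat_gt ((2 * ∑' Λ, golden.u 0 Λ) / ∫ x, f k x ∂μ)
    rw [div_lt_iff₀ hpos] at hN
    linarith [hbound N]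
  have hae : ∀ k (n : ℤ), ∀ᵐ x ∂μ, f k (look x n) = 0 := by
    intro k n
    have h1 : ∫ x, f k (look x n) ∂μ = 0 := by rw [integral_look hinv (hfm k), hzero k]
    have h2 := (integral_eq_zero_iff_of_nonneg (fun x => hf0 k (look x n)) (hint k n)).mp h1
    filter_upwards [h2] with x hx
    exact hx
  have hall : ∀ᵐ x ∂μ, ∀ k : ℕ, f k (look x 0) = 0 := by
    rw [ae_all_iff]
    exact fun k => hae k 0
  filter_upwards [hall] with x hx a b
  -- choose a window containing [a,b]
  obtain ⟨k, hk⟩ : ∃ k : ℕ, |a| + |b| ≤ rad k := by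
    refine ⟨(|a| + |b|).toNat, ?_⟩
    have h1 := Nat.le_fib_self (n := (|a| + |b|).toNat + 6) (by omega)
    have h2 : ((|a| + |b|).toNat : ℤ) ≤ (Nat.fib ((|a| + |b|).toNat + 6) : ℤ) := by
      exact_mod_cast (by omega : (|a| + |b|).toNat ≤ Nat.fib ((|a| + |b|).toNat + 6))
    rw [Int.toNat_of_nonneg (by positivity)] at h2
    exact h2
  have h1 := hx k
  rw [hf] at h1
  simp only at h1
  rw [← golden_look x 0 k] at h1
  by_contra hcon
  have hbad : ¬ Allowed x (0 - rad k) (0 + rad k) := by
    intro h
    apply hcon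
    refine h.mono ?_ ?_
    · linarith [neg_abs_le a, abs_nonneg b]
    · linarith [le_abs_self b, abs_nonneg a]
  rw [golden_val_bad hbad] at h1
  have : (0 : ℝ) < 1 / (2 * (Nat.fib (k + 6) : ℝ) + 1) ^ 2 := by positivity
  linarith

theorem isGroundState_rho : golden.IsGroundState rho := by
  refine ⟨isProbability_rho, rho_inv, ?_⟩
  filter_upwards [rho_supp] with x hx y _
  exact relH_golden_nonneg hx

theorem unique_ground_state {μ : Measure Cfg} (hμ : golden.IsGroundState μ) : μ = rho :=
  unique_measure hμ.1 isProbability_rho hμ.2.1 rho_inv (ground_supp hμ) rho_supp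

theorem stable_rho : golden.IsStable rho := by
  intro Φ' hΦ'
  obtain ⟨K, hK, hkey⟩ := key Φ' hΦ'
  refine ⟨1 / (K + 1), by positivity, fun ε hε hε2 => ?_⟩
  refine ⟨isProbability_rho, rho_inv, ?_⟩
  filter_upwards [rho_supp] with x hx y hD
  rw [golden.relH_addSMul Φ' golden_summable (Φ'.isSummable_of_finiteRange hΦ') ε hD]
  have h1 := hkey x hx y hD
  have h2 := relH_golden_nonneg (y := y) hx
  have h3 := (abs_le.mp h1).1
  have h4 : ε * K ≤ 1 := by
    rw [lt_div_iff₀ (by positivity)] at hε2
    nlinarith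
  have h5 : ε * Φ'.relH y x ≥ -(ε * K * golden.relH y x) := by
    have := mul_le_mul_of_nonneg_left h3 hε.le
    linarith
  have h6 : ε * K * golden.relH y x ≤ 1 * golden.relH y x := mul_le_mul_of_nonneg_right h4 h2
  linarith

end Pool.Agent.H754R3.Sturm
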